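import Pool.Agent.Y221.AP.Inf
import Pool.Agent.Y221.AB.Ab2

/-!
Sums of high powers of algebroid functions on the exterior of the unit disc: the functions are
algebraic over the functions which are meromorphic at infinity.
-/

set_option autoImplicit false
set_option maxHeartbeats 400000
set_option linter.unusedSectionVars false

namespace Pool.Agent.Y221.AP

open Filter Metric Set Topology Polynomial Pool.Agent.W602.GT Pool.Agent.W603.LV IntermediateField
open Pool.Agent.Y221.AB (Nb Nbd_le)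

variable {E : Type} [Field E] [Algebra MK E] [Algebra ℂ E] [IsScalarTower ℂ MK E]

theorem alg_of_coeffs {p : MK[X]} (hp : p ≠ 0) (hc : ∀ k, MInf (p.coeff k)) {x : E}
    (hx : aeval x p = 0) : IsAlgebraic MI x := by
  obtain ⟨q, hq⟩ := (mem_lifts p).1 ((lifts_iff_coeff_lifts (f := algebraMap MI MK) p).2 fun k =>
    ⟨⟨p.coeff k, hc k⟩, rfl⟩)
  refine ⟨q, ?_, ?_⟩
  · rintro rfl
    rw [Polynomial.map_zero] at hq
    exact hp hq.symm
  · rw [← hx, ← hq, aeval_map_algebraMap]

variable [FiniteDimensional MK E]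

/-- **A circuit of high powers of algebroid functions consists of functions which are algebraic
over the functions which are meromorphic at infinity.** -/
theorem ab1 {m N : ℕ} (hN : Nb (Module.finrank MK E) m ≤ N)
    {β : Fin (m + 1) → E} (h0 : β 0 = 1)
    (hβ0 : ∀ j, β j ≠ 0) (hsum : ∑ j, β j ^ N = 0)
    (hli : LinearIndependent ℂ fun l : Fin m => β ((Fin.last m).succAbove l) ^ N)
    (j : Fin (m + 1)) : IsAlgebraic MI (β j) := by
  classical
  obtain ⟨s, hs⟩ := exists_lin_prim β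
  obtain ⟨ρ, hρ⟩ : ∃ ρ : E, ρ = ∑ j, algebraMap ℂ E (s j) * β j := ⟨_, rfl⟩
  rw [← hρ] at hs
  have hint : IsIntegral MK ρ := Algebra.IsIntegral.isIntegral ρ
  let b : Fin (m + 1) → MK⟮ρ⟯ := fun j => ⟨β j, hs j⟩
  have hb0 : b 0 = 1 := Subtype.ext h0
  have hbne : ∀ j, b j ≠ 0 := by
    intro j h
    exact hβ0 j (congrArg Subtype.val h)
  have hbsum : ∑ j, b j ^ N = 0 := by
    apply Subtype.ext
    rw [AddSubmonoidClass.coe_finsetSum]
    exact hsum
  let pb : PowerBasis MK MK⟮ρ⟯ := adjoin.powerBasis hint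
  have hgen : (pb.gen : E) = ρ := rfl
  have hfd : FiniteDimensional MK MK⟮ρ⟯ := adjoin.finiteDimensional hint
  have hgs : pb.gen = ∑ j, algebraMap ℂ MK⟮ρ⟯ (s j) * b j := by
    apply Subtype.ext
    refine hgen.trans (hρ.trans ?_)
    refine Eq.trans ?_ (AddSubmonoidClass.coe_finsetSum _ _).symm
    exact Finset.sum_congr rfl fun j _ => rfl
  have hdim : pb.dim ≤ Module.finrank MK E := by
    have h1 : pb.dim = (minpoly MK ρ).natDegree := rfl
    rw [h1]
    exact minpoly.natDegree_le ρ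
  obtain ⟨D₁, hD⟩ := exists_der MK⟮ρ⟯
  have hli' : LinearIndependent ℂ fun l : Fin m => b ((Fin.last m).succAbove l) ^ N := by
    rw [Fintype.linearIndependent_iff] at hli ⊢
    intro c hc
    apply hli c
    have h1 := congrArg (Subtype.val : MK⟮ρ⟯ → E) hc
    rw [AddSubmonoidClass.coe_finsetSum] at h1
    refine Eq.trans (Finset.sum_congr rfl fun l _ => ?_) h1
    rw [Algebra.smul_def]
    exact (Algebra.smul_def (c l) (β ((Fin.last m).succAbove l) ^ N)).symm
  have hW : wr D₁ (fun l => b ((Fin.last m).succAbove l) ^ N) ≠ 0 :=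
    wr_ne (fun h hh => const_ext hD hh) _ hli'
  have hmain := main_rat pb hgs hb0 hbne hD ((Nbd_le hdim).trans hN) hbsum hW
  have hmin : minpoly MK pb.gen = minpoly MK ρ := minpoly_gen MK ρ
  have hdeg : (minpoly MK ρ).natDegree = pb.dim := rfl
  -- the generator
  have hcc : ∀ k, MInf ((minpoly MK ρ).coeff k) := by
    intro k
    rcases lt_trichotomy k pb.dim with h1 | h1 | h1
    · have h2 : MInf ((minpoly MK pb.gen).coeff k) :=
        hmain (Sum.inr (Sum.inr (Sum.inr (Sum.inl ⟨k, h1⟩))))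
      rwa [hmin] at h2
    · rw [h1, ← hdeg, (minpoly.monic hint).coeff_natDegree]
      exact one_mem MI
    · rw [coeff_eq_zero_of_natDegree_lt (by rw [hdeg]; exact h1)]
      exact zero_mem MI
  have hρa : IsAlgebraic MI ρ := alg_of_coeffs (minpoly.ne_zero hint) hcc (minpoly.aeval MK ρ)
  -- the coefficients
  have hd : MInf (dsc pb) := hmain (Sum.inr (Sum.inl ()))
  have hr : ∀ k, pb.basis.repr (b j) k ∈ MI := by
    intro k
    have h1 : MInf (dsc pb * pb.basis.repr (b j) k) :=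
      hmain (Sum.inr (Sum.inr (Sum.inr (Sum.inr (j, k)))))
    have h2 : pb.basis.repr (b j) k = (dsc pb)⁻¹ * (dsc pb * pb.basis.repr (b j) k) := by
      rw [inv_mul_cancel_left₀ (dsc_ne pb)]
    rw [h2]
    exact mul_mem (inv_mem hd) h1
  have h3 : β j = ∑ k, algebraMap MK E (pb.basis.repr (b j) k) * ρ ^ (k : ℕ) := by
    have h4 := congrArg (Subtype.val : MK⟮ρ⟯ → E) (pb.basis.sum_repr (b j))
    rw [AddSubmonoidClass.coe_finsetSum] at h4
    refine h4.symm.trans (Finset.sum_congr rfl fun k _ => ?_)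
    rw [pb.basis_eq_pow]
    exact Algebra.smul_def (pb.basis.repr (b j) k) (ρ ^ (k : ℕ))
  have hint2 : ∀ x : E, IsAlgebraic MI x ↔ IsIntegral MI x := fun x => isAlgebraic_iff_isIntegral
  rw [hint2, h3]
  refine IsIntegral.sum _ fun k _ => IsIntegral.mul ?_ (IsIntegral.pow ((hint2 ρ).1 hρa) _)
  exact isIntegral_algebraMap (R := MI) (A := E) (x := ⟨_, hr k⟩)

/-! ### classes -/

/-- sums over the classes of a relation which contains the circuits -/
theorem circ_cls {V J : Type} [AddCommGroup V] [Module ℂ V] [Fintype J] (v : J → V)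
    (R : J → J → Prop) (A : Finset J) (hA : ∀ i j, R i j → (i ∈ A ↔ j ∈ A))
    (H : ∀ c : J → ℂ, ∑ j, c j • v j = 0 →
      (∀ c' : J → ℂ, ∑ j, c' j • v j = 0 → (∀ j, c j = 0 → c' j = 0) →
        (∃ j, c j ≠ 0 ∧ c' j = 0) → ∀ j, c' j = 0) →
      ∀ i j, c i ≠ 0 → c j ≠ 0 → R i j) (c : J → ℂ) (hc : ∑ j, c j • v j = 0) :
    ∑ j ∈ A, c j • v j = 0 := by
  classical
  obtain ⟨n, hn⟩ : ∃ n, n = (Finset.univ.filter fun j => c j ≠ 0).card := ⟨_, rfl⟩
  induction n using Nat.strong_induction_on generalizing c with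
  | _ n ih =>
  by_cases h0 : ∀ j, c j = 0
  · exact Finset.sum_eq_zero fun j _ => by rw [h0, zero_smul]
  push Not at h0
  let P : ℕ → Prop := fun n => ∃ c1 : J → ℂ, ∑ j, c1 j • v j = 0 ∧ (∀ j, c j = 0 → c1 j = 0) ∧
    (∃ j, c1 j ≠ 0) ∧ (Finset.univ.filter fun j => c1 j ≠ 0).card = n
  have hP : ∃ n, P n := ⟨_, c, hc, fun _ h => h, h0, rfl⟩
  obtain ⟨c1, h1, h2, ⟨t, ht⟩, h4⟩ := Nat.find_spec hP
  have hmin : ∀ i j, c1 i ≠ 0 → c1 j ≠ 0 → R i j := by
    refine H c1 h1 fun c' e1 e2 e3 => ?_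
    by_contra e4
    push Not at e4
    obtain ⟨t', ht', ht''⟩ := e3
    refine Nat.find_min hP (m := (Finset.univ.filter fun j => c' j ≠ 0).card) ?_
      ⟨c', e1, fun j hj => e2 j (h2 j hj), e4, rfl⟩
    rw [← h4]
    apply Finset.card_lt_card
    rw [Finset.ssubset_iff_of_subset]
    · exact ⟨t', Finset.mem_filter.2 ⟨Finset.mem_univ _, ht'⟩, fun h =>
        (Finset.mem_filter.1 h).2 ht''⟩
    · intro j hj
      rw [Finset.mem_filter] at hj ⊢
      exact ⟨hj.1, fun h => hj.2 (e2 j h)⟩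
  have hs1 : ∑ j ∈ A, c1 j • v j = 0 := by
    by_cases htA : t ∈ A
    · rw [← h1]
      refine Finset.sum_subset (Finset.subset_univ A) fun j _ hj => ?_
      have : c1 j = 0 := by
        by_contra h5
        exact hj ((hA _ _ (hmin t j ht h5)).1 htA)
      rw [this, zero_smul]
    · refine Finset.sum_eq_zero fun j hj => ?_
      have : c1 j = 0 := by
        by_contra h5
        exact htA ((hA _ _ (hmin t j ht h5)).2 hj)
      rw [this, zero_smul]
  have hct : c t ≠ 0 := fun h => ht (h2 t h)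
  let c2 : J → ℂ := fun j => c j - c t / c1 t * c1 j
  have e1 : ∀ B : Finset J, ∑ j ∈ B, c2 j • v j = ∑ j ∈ B, c j • v j -
      (c t / c1 t) • ∑ j ∈ B, c1 j • v j := by
    intro B
    simp only [c2, sub_smul, Finset.sum_sub_distrib, Finset.smul_sum, smul_smul]
  have hs2 : ∑ j ∈ A, c2 j • v j = 0 := by
    refine ih _ ?_ c2 ?_ rfl
    · rw [hn]
      apply Finset.card_lt_card
      rw [Finset.ssubset_iff_of_subset]
      · refine ⟨t, Finset.mem_filter.2 ⟨Finset.mem_univ _, hct⟩, fun h =>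
          (Finset.mem_filter.1 h).2 ?_⟩
        simp only [c2]
        field_simp
        ring
      · intro j hj
        rw [Finset.mem_filter] at hj ⊢
        refine ⟨hj.1, fun h => hj.2 ?_⟩
        simp only [c2]
        rw [h, h2 j h, mul_zero, sub_zero]
    · rw [e1, hc, h1, smul_zero, sub_zero]
  have h6 := e1 A
  rw [hs2, hs1, smul_zero, sub_zero] at h6
  exact h6.symm

end Pool.Agent.Y221.AP
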