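import Pool.Agent.Y221.AP.Ab1
import Pool.Agent.W602.GT.KPick

/-!
Borel's lemma for high powers of algebroid functions on the exterior of the unit disc.
-/

set_option autoImplicit false
set_option maxHeartbeats 400000
set_option linter.unusedSectionVars false

namespace Pool.Agent.Y221.AP

open Filter Metric Set Topology Polynomial Pool.Agent.W602.GT Pool.Agent.W603.LV IntermediateField
open Pool.Agent.Y221.AB (Nb Nbd_le NB Nb_le_NB one_le_NB)

variable {E : Type} [Field E] [Algebra MK E] [Algebra ℂ E] [IsScalarTower ℂ MK E]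

/-- the ratio is algebraic over the functions which are meromorphic at infinity -/
def AProp (x y : E) : Prop := IsAlgebraic MI (x / y)

theorem AProp.refl {x : E} (hx : x ≠ 0) : AProp x x := by
  unfold AProp
  rw [div_self hx]
  exact isAlgebraic_one

theorem AProp.symm {x y : E} (h : AProp x y) : AProp y x := by
  unfold AProp at h ⊢
  have := h.inv
  rwa [inv_div] at this

theorem AProp.trans {x y z : E} (hy : y ≠ 0) (h : AProp x y) (h' : AProp y z) : AProp x z := by
  unfold AProp at h h' ⊢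
  have := h.mul h'
  rwa [div_mul_div_cancel₀ hy] at this

variable [FiniteDimensional MK E]

/-- the members of a circuit of high powers have algebraic ratios -/
theorem circ_alg {J : Type} [Fintype J] {r s N : ℕ} (hr : Module.finrank MK E ≤ r)
    (hs : Fintype.card J ≤ s) (hN : NB r s ≤ N) {u : J → E} (hu0 : ∀ j, u j ≠ 0)
    (c : J → ℂ) (hc : ∑ j, c j • u j ^ N = 0)
    (hmin : ∀ c' : J → ℂ, ∑ j, c' j • u j ^ N = 0 → (∀ j, c j = 0 → c' j = 0) →
        (∃ j, c j ≠ 0 ∧ c' j = 0) → ∀ j, c' j = 0)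
    (i j : J) (hi : c i ≠ 0) (hj : c j ≠ 0) : AProp (u i) (u j) := by
  classical
  have hN0 : 1 ≤ N := (one_le_NB r s).trans hN
  let B : Finset J := Finset.univ.filter fun j => c j ≠ 0
  have hB : ∀ j, j ∈ B ↔ c j ≠ 0 := fun j => by simp [B]
  have hBs : B.card ≤ s := (Finset.card_le_univ B).trans hs
  obtain ⟨m, hm⟩ : ∃ m, B.card = m + 1 := ⟨B.card - 1, by
    have := Finset.card_pos.2 ⟨i, (hB i).2 hi⟩
    omega⟩
  let e : Fin (m + 1) ≃ B := (Fintype.equivFinOfCardEq (by rw [Fintype.card_coe, hm])).symm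
  have hroot : ∀ i, ∃ z : ℂ, z ^ N = c i := fun i =>
    IsAlgClosed.exists_pow_nat_eq (c i) (by omega)
  choose μ hμ using hroot
  have hμ0 : ∀ j : Fin (m + 1), μ (e j) ≠ 0 := by
    intro j h0
    apply (hB (e j)).1 (e j).2
    rw [← hμ, h0, zero_pow (by omega)]
  obtain ⟨q, hq⟩ : ∃ q : E, q = algebraMap ℂ E (μ (e 0)) * u (e 0) := ⟨_, rfl⟩
  have hq0 : q ≠ 0 := by
    rw [hq]
    exact mul_ne_zero ((_root_.map_ne_zero _).2 (hμ0 0)) (hu0 _)
  let β : Fin (m + 1) → E := fun j => algebraMap ℂ E (μ (e j)) * u (e j) / q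
  have hβN : ∀ j, β j ^ N = (c (e j) • u (e j) ^ N) / q ^ N := by
    intro j
    simp only [β]
    rw [div_pow, mul_pow, ← map_pow, hμ, Algebra.smul_def]
  have hre : ∀ f : J → E, (∀ j, c j = 0 → f j = 0) → ∑ i, f i = ∑ j, f (e j) := by
    intro f hf
    have h1 : ∑ i ∈ B, f i = ∑ i, f i := by
      refine Finset.sum_subset (Finset.subset_univ B) fun j _ hj => hf j ?_
      by_contra h2
      exact hj ((hB j).2 h2)
    rw [← h1, ← Finset.sum_coe_sort B f]
    exact (Equiv.sum_comp e (fun i : B => f i)).symm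
  have h0 : β 0 = 1 := by
    simp only [β]
    rw [← hq, div_self hq0]
  have hβ0 : ∀ j, β j ≠ 0 := fun j =>
    div_ne_zero (mul_ne_zero ((_root_.map_ne_zero _).2 (hμ0 j)) (hu0 _)) hq0
  have hβs : ∑ j, β j ^ N = 0 := by
    simp only [hβN]
    rw [← Finset.sum_div, ← hre (fun i => c i • u i ^ N) (fun j hj => by rw [hj, zero_smul]), hc,
      zero_div]
  have hli : LinearIndependent ℂ fun l : Fin m => β ((Fin.last m).succAbove l) ^ N := by
    rw [Fintype.linearIndependent_iff]
    intro x hx l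
    let x' : Fin (m + 1) → ℂ := (Fin.last m).insertNth 0 x
    have hx'l : ∀ l, x' ((Fin.last m).succAbove l) = x l := fun l =>
      Fin.insertNth_apply_succAbove (α := fun _ => ℂ) _ _ _ _
    have hx'0 : x' (Fin.last m) = 0 := Fin.insertNth_apply_same (α := fun _ => ℂ) _ _ _
    let y : J → ℂ := fun i => if h : i ∈ B then x' (e.symm ⟨i, h⟩) * c i else 0
    have hye : ∀ j, y (e j) = x' j * c (e j) := by
      intro j
      simp only [y]
      rw [dif_pos (e j).2]
      simp
    have hy0 : ∀ j, c j = 0 → y j = 0 := by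
      intro j hj
      simp only [y]
      rw [dif_neg (fun h => (hB j).1 h hj)]
    have h1 : ∑ i, y i • u i ^ N = 0 := by
      rw [hre (fun i => y i • u i ^ N) (fun j hj => by rw [hy0 j hj, zero_smul]),
        Fin.sum_univ_succAbove _ (Fin.last m)]
      have h2 : ∀ j, y (e j) • u (e j) ^ N = q ^ N * (x' j • β j ^ N) := by
        intro j
        rw [hye, hβN, mul_smul, Algebra.smul_def, Algebra.smul_def (x' j)]
        field_simp
      simp only [h2]
      rw [hx'0, zero_smul, mul_zero, zero_add, ← Finset.mul_sum]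
      simp only [hx'l]
      rw [hx, mul_zero]
    have h3 := hmin y h1 hy0 ⟨e (Fin.last m), (hB _).1 (e (Fin.last m)).2, by
      rw [hye, hx'0, zero_mul]⟩ (e ((Fin.last m).succAbove l))
    rw [hye, hx'l] at h3
    exact (mul_eq_zero.1 h3).resolve_right ((hB _).1 (e _).2)
  have hNb : Nb (Module.finrank MK E) m ≤ N :=
    (Nb_le_NB hr (show m < s by omega)).trans hN
  have hβ := ab1 hNb h0 hβ0 hβs hli
  have hcon : ∀ c : ℂ, IsAlgebraic MI (algebraMap ℂ E c) := by
    intro c
    rw [IsScalarTower.algebraMap_apply ℂ MK E]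
    exact isAlgebraic_algebraMap (R := MI) (A := E) (⟨algebraMap ℂ MK c, minf_const c⟩ : MI)
  have hall : ∀ k, AProp (u (e k)) (u (e 0)) := by
    intro k
    have h1 : u (e k) / u (e 0) =
        β k * algebraMap ℂ E (μ (e 0)) * (algebraMap ℂ E (μ (e k)))⁻¹ := by
      simp only [β]
      rw [hq]
      have h3 : algebraMap ℂ E (μ (e k)) ≠ 0 := (_root_.map_ne_zero _).2 (hμ0 _)
      have h4 : algebraMap ℂ E (μ (e 0)) ≠ 0 := (_root_.map_ne_zero _).2 (hμ0 _)
      have h5 := hu0 (e 0)
      field_simp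
    unfold AProp
    rw [h1]
    exact ((hβ k).mul (hcon _)).mul (hcon _).inv
  have hie : u i = u (e (e.symm ⟨i, (hB i).2 hi⟩)) := by rw [Equiv.apply_symm_apply]
  have hje : u j = u (e (e.symm ⟨j, (hB j).2 hj⟩)) := by rw [Equiv.apply_symm_apply]
  rw [hie, hje]
  exact (hall _).trans (hu0 _) (hall _).symm

/-- **Borel's lemma for high powers of algebroid functions on the exterior of the unit disc**: the
sums over the classes of functions whose ratios are algebraic over the functions which are
meromorphic at infinity vanish. -/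
theorem bor_cls {J : Type} [Fintype J] {r s N : ℕ} (hr : Module.finrank MK E ≤ r)
    (hs : Fintype.card J ≤ s) (hN : NB r s ≤ N) {u : J → E} (hu0 : ∀ j, u j ≠ 0)
    (c : J → ℂ) (hsum : ∑ j, c j • u j ^ N = 0) (j0 : J) (A : Finset J)
    (hA : ∀ j, j ∈ A ↔ AProp (u j0) (u j)) : ∑ j ∈ A, c j • u j ^ N = 0 := by
  refine circ_cls (fun j => u j ^ N) (fun i j => AProp (u i) (u j)) A ?_ ?_ c hsum
  · intro i j hij
    rw [hA, hA]
    exact ⟨fun h => h.trans (hu0 _) hij, fun h => h.trans (hu0 _) hij.symm⟩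
  · intro c1 h1 h2 i j hi hj
    exact circ_alg hr hs hN hu0 c1 h1 h2 i j hi hj

/-- **derivations**: elements which are not algebraic have nonzero derivatives -/
theorem exists_derI {x : E} (hx : ¬ IsAlgebraic MI x) :
    ∃ D : Derivation ℂ E E, D x ≠ 0 ∧ ∀ y, IsAlgebraic MI y → D y = 0 := by
  classical
  have h1 : AlgebraicIndependent MI (fun _ : Unit => x) :=
    (algebraicIndependent_unique_type_iff (R := MI)).2 hx
  have hinj : FaithfulSMul MI E := inferInstance
  obtain ⟨B, hB1, hB⟩ := exists_isTranscendenceBasis_superset (R := MI) (A := E)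
    (s := Set.range fun _ : Unit => x) h1.to_subtype_range
  let t : B → E := Subtype.val
  have hxB : x ∈ B := hB1 ⟨(), rfl⟩
  obtain ⟨D, hD⟩ := Pool.Agent.W602.GT.exists_der t hB
    (fun i => if i.1 = x then 1 else 0)
  have hDx : D x = 1 := by
    have := hD ⟨x, hxB⟩
    simpa [t] using this
  have hst : IsScalarTower ℂ MI E := inferInstance
  refine ⟨D.restrictScalars ℂ, ?_, fun y hy => ?_⟩
  · change D x ≠ 0
    rw [hDx]
    exact one_ne_zero
  · change D y = 0
    refine Pool.Agent.W602.GT.der_of_alg D ?_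
    exact hy.extendScalars (algebraMap MI (consts D)).injective

end Pool.Agent.Y221.AP
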