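import Pool.Agent.Y221.BD.Mv
import Pool.Agent.Y221.AP.Ab2

/-!
The dichotomy for algebroid points on the exterior of the unit disc: algebraic over the functions
which are meromorphic at infinity, or moved by linear or diagonal motions.
-/

set_option autoImplicit false
set_option maxHeartbeats 400000
set_option linter.overlappingInstances false
set_option linter.unusedSectionVars false

open IntermediateField Pool.Agent.W603.LV

namespace Pool.Agent.Y221.AP

open Pool.Agent.W602.GT Pool.Agent.TH466.QG Pool.Agent.Y221.BD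
open Pool.Agent.Y221.AB (NB one_le_NB)

variable {n : ℕ} {ι : Type}

variable {E : Type} [Field E] [Algebra MK E] [Algebra ℂ E] [IsScalarTower ℂ MK E]
  [FiniteDimensional MK E]

/-- the point is algebraic over the functions which are meromorphic at infinity -/
def Alg0 {E : Type} [Field E] [Algebra MK E] (i0 : Fin (n + 1)) (y : Fin (n + 1) → E) : Prop :=
  ∀ i, IsAlgebraic MI (y i / y i0)

/-- the vector field -/
theorem exists_vec {i0 : Fin (n + 1)} {y : Fin (n + 1) → E} (h : ¬ Alg0 i0 y) :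
    ∃ D : Derivation ℂ E E, (∃ i, D (y i / y i0) ≠ 0) ∧ ∀ x, IsAlgebraic MI x → D x = 0 := by
  unfold Alg0 at h
  push Not at h
  obtain ⟨i, hi⟩ := h
  obtain ⟨D, hD, hD2⟩ := exists_derI hi
  exact ⟨D, ⟨i, hD⟩, hD2⟩

/-- sums of powers of linear forms -/
theorem ana_war {r0 s N : ℕ} (hfin : Module.finrank MK E ≤ r0) (hN : NB r0 s ≤ N)
    {r d : ι → ℕ} {l : ∀ e, Fin (r e) → Fin (n + 1) → ℂ} (hr : ∀ e, r e ≤ s)
    (hd : ∀ e, N ≤ d e) {y : Fin (n + 1) → E} {i0 : Fin (n + 1)} (hi0 : y i0 ≠ 0)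
    (hyF : ∀ e, ∑ j, lin (l e j) y ^ d e = 0) : Alg0 i0 y ∨ WAlt l d i0 y := by
  classical
  by_cases hc : Alg0 i0 y
  · exact Or.inl hc
  right
  obtain ⟨D, ⟨i1, hi1⟩, hDa⟩ := exists_vec hc
  have hN1 : 1 ≤ N := (one_le_NB r0 s).trans hN
  have hd0 : ∀ e, 0 < d e := fun e => lt_of_lt_of_le hN1 (hd e)
  let v : Fin (n + 1) → E := fun j => y i0 * D (y j / y i0)
  refine ⟨fun e i j => AProp (lin (l e i.1) y) (lin (l e j.1) y), v,
    fun e => ⟨fun i => AProp.refl i.2, fun h => h.symm, fun {_ j _} h h' => h.trans j.2 h'⟩,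
    ?_, ?_, ?_, ?_, ?_⟩
  · intro e j0 A hA
    have hsum : ∑ j : {j // lin (l e j) y ≠ 0}, (1 : ℂ) • lin (l e j.1) y ^ d e = 0 := by
      simp only [one_smul]
      refine Eq.trans ?_ (hyF e)
      rw [← Finset.sum_subtype (Finset.univ.filter fun j => lin (l e j) y ≠ 0) (by simp)
        (fun j => lin (l e j) y ^ d e), Finset.sum_filter_of_ne]
      intro j _ hj h0
      exact hj (by rw [h0, zero_pow (hd0 e).ne'])
    have hcard : Fintype.card {j // lin (l e j) y ≠ 0} ≤ s :=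
      (Fintype.card_subtype_le _).trans (by rw [Fintype.card_fin]; exact hr e)
    have h1 := bor_cls hfin hcard (hN.trans (hd e)) (u := fun j : {j // lin (l e j) y ≠ 0} =>
      lin (l e j.1) y) (fun j => j.2) (fun _ => 1) hsum j0 A hA
    simpa only [one_smul] using h1
  · change y i0 * D (y i0 / y i0) = 0
    rw [div_self hi0, Derivation.map_one_eq_zero, mul_zero]
  · intro h0
    have h1 := congrFun h0 i1
    exact hi1 ((mul_eq_zero.1 h1).resolve_left hi0)
  · intro e j hj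
    change lin (l e j) (fun j => y i0 * D (y j / y i0)) = 0
    rw [Pool.Agent.TH466.QG.lin_der, hj, zero_div, map_zero, mul_zero]
  · intro e i j hij
    obtain ⟨c, hcd⟩ : ∃ c, c = lin (l e i.1) y / lin (l e j.1) y := ⟨_, rfl⟩
    have hc' : lin (l e i.1) y = c * lin (l e j.1) y := by
      rw [hcd, div_mul_cancel₀ _ j.2]
    have hDc : D c = 0 := by
      rw [hcd]
      exact hDa _ hij
    change lin (l e i.1) (fun j => y i0 * D (y j / y i0)) * _ =
      lin (l e j.1) (fun j => y i0 * D (y j / y i0)) * _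
    rw [Pool.Agent.TH466.QG.lin_der, Pool.Agent.TH466.QG.lin_der, hc', mul_div_assoc,
      D.leibniz, hDc, smul_eq_mul, smul_zero, add_zero]
    ring

/-- sums of few monomials -/
theorem ana_sp {r0 s N : ℕ} (hfin : Module.finrank MK E ≤ r0) (hN : NB r0 s ≤ N)
    {F : ι → MvPolynomial (Fin (n + 1)) ℂ} (hF : ∀ e, IsPowSparse ∅ s N (F e))
    {y : Fin (n + 1) → E} {i0 : Fin (n + 1)} (hi0 : y i0 ≠ 0) (hyF : ∀ e, val y (F e) = 0) :
    Alg0 i0 y ∨ WtMv F y := by
  classical
  by_cases hc : Alg0 i0 y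
  · exact Or.inl hc
  right
  obtain ⟨D, ⟨i1, hi1⟩, hDa⟩ := exists_vec hc
  have hK : CharZero E := charZero_of_injective_algebraMap (algebraMap ℂ E).injective
  have hyi : y i1 ≠ 0 := by
    intro h0
    apply hi1
    rw [h0, zero_div, map_zero]
  have hlam : D (y i1) / y i1 ≠ D (y i0) / y i0 := by
    intro h0
    apply hi1
    rw [div_eq_mul_inv, D.leibniz, D.leibniz_inv]
    simp only [smul_eq_mul]
    field_simp at h0 ⊢
    linear_combination h0
  obtain ⟨b, hb, hb2⟩ := int_weights (fun j => D (y j) / y j) hlam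
  choose N' hN' hdvd using fun e => (hF e).2.2
  let T : ∀ e, (Fin (n + 1) →₀ ℕ) → E := fun e α => algebraMap ℂ E ((F e).coeff α) * ∏ j, y j ^ α j
  let J : ι → Type := fun e => {α : (F e).support // T e α ≠ 0}
  let g : ∀ e, J e → E := fun e α => T e α.1
  have hsub : ∀ (e : ι) (h : (Fin (n + 1) →₀ ℕ) → E), ∑ α ∈ (F e).support, h α * T e α =
      ∑ α : J e, h α.1 * g e α := by
    intro e h
    rw [← Finset.sum_coe_sort (F e).support (fun α => h α * T e α)]
    rw [← Finset.sum_subtype (Finset.univ.filter fun α : (F e).support => T e α ≠ 0) (by simp)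
      (fun α : (F e).support => h α * T e α), Finset.sum_filter_of_ne]
    intro α _ hα h0
    exact hα (by rw [h0, mul_zero])
  have hsum : ∀ e, ∑ j, g e j = 0 := by
    intro e
    have h1 := hsub e (fun _ => 1)
    simp only [one_mul] at h1
    rw [← h1, ← val_eq_sum]
    exact hyF e
  have hcard : ∀ e, Fintype.card (J e) ≤ s := fun e =>
    (Fintype.card_subtype_le _).trans (by rw [Fintype.card_coe]; exact (hF e).2.1)
  have hN1 : 1 ≤ N := (one_le_NB r0 s).trans hN
  let U : ∀ e, J e → E := fun e α => ∏ l, y l ^ ((α.1 : Fin (n + 1) →₀ ℕ) l / N' e)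
  have hUpow : ∀ e (α : J e), U e α ^ N' e = ∏ l, y l ^ ((α.1 : Fin (n + 1) →₀ ℕ) l) := by
    intro e α
    simp only [U]
    rw [← Finset.prod_pow]
    refine Finset.prod_congr rfl fun l _ => ?_
    rw [← pow_mul]
    congr 1
    exact Nat.div_mul_cancel (hdvd e _ α.1.2 l (Set.notMem_empty l))
  have hval : ∀ e (α : J e), (F e).coeff (α.1 : Fin (n + 1) →₀ ℕ) • U e α ^ N' e = g e α := by
    intro e α
    rw [hUpow, Algebra.smul_def]
  have hU0 : ∀ e (α : J e), U e α ≠ 0 := by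
    intro e α h0
    apply α.2
    change g e α = 0
    rw [← hval, h0, zero_pow (by have := hN' e; omega), smul_zero]
  refine ⟨b, i1, i0, hyi, hi0, hb, fun e v => ?_⟩
  rw [val_wc, Finset.sum_filter]
  have h1 := hsub e (fun α => if ∑ j, (α j : ℤ) * b j = v then 1 else 0)
  simp only [ite_mul, one_mul, zero_mul] at h1
  rw [h1]
  have h2 := weighted_sum (fun α β : J e => AProp (U e α) (U e β))
    ⟨fun i => AProp.refl (hU0 e i), fun h => h.symm, fun {_ j _} h h' => h.trans (hU0 e j) h'⟩ (g e)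
    (fun α => if ∑ j, ((α.1 : Fin (n + 1) →₀ ℕ) j : ℤ) * b j = v then 1 else 0) ?_ ?_
  · simpa only [ite_mul, one_mul, zero_mul] using h2
  · intro α β hαβ
    have h3 : D (T e α.1) * T e β.1 = T e α.1 * D (T e β.1) := by
      obtain ⟨c, hcd⟩ : ∃ c, c = U e α / U e β := ⟨_, rfl⟩
      have hDc : D c = 0 := by
        rw [hcd]
        exact hDa _ hαβ
      have hc' : U e α = c * U e β := by
        rw [hcd, div_mul_cancel₀ _ (hU0 e β)]
      have hDU : D (U e α) * U e β = U e α * D (U e β) := by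
        rw [hc', D.leibniz, hDc, smul_eq_mul, smul_zero, add_zero]
        ring
      have h4 : ∀ γ : J e, D (T e γ.1) = (N' e : E) * (D (U e γ) / U e γ) * T e γ.1 := by
        intro γ
        have h5 : T e γ.1 = (F e).coeff (γ.1 : Fin (n + 1) →₀ ℕ) • U e γ ^ N' e := (hval e γ).symm
        have hN'0 : 1 ≤ N' e := hN1.trans (hN' e)
        have h6 := hU0 e γ
        obtain ⟨q, hq⟩ : ∃ q, N' e = q + 1 := ⟨N' e - 1, by omega⟩
        rw [h5, D.map_smul, D.leibniz_pow, hq, Nat.add_sub_cancel]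
        simp only [smul_eq_mul, nsmul_eq_mul]
        rw [Algebra.smul_def, Algebra.smul_def]
        push_cast
        field_simp
        rw [pow_succ]
        ring
      rw [h4, h4]
      have h6 := hU0 e α
      have h7 := hU0 e β
      field_simp
      linear_combination ((N' e : E) * T e α.1 * T e β.1) * hDU
    rw [der_mon D α.2, der_mon D β.2] at h3
    have h4 : ∑ j, ((α.1 : Fin (n + 1) →₀ ℕ) j : E) * (D (y j) / y j) =
        ∑ j, ((β.1 : Fin (n + 1) →₀ ℕ) j : E) * (D (y j) / y j) := by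
      apply mul_left_cancel₀ (mul_ne_zero α.2 β.2)
      linear_combination h3
    have h5 := hb2 (fun j => ((α.1 : Fin (n + 1) →₀ ℕ) j : ℤ) - ((β.1 : Fin (n + 1) →₀ ℕ) j : ℤ)) (by
      push_cast
      simp only [sub_mul, Finset.sum_sub_distrib]
      rw [h4, sub_self])
    simp only [sub_mul, Finset.sum_sub_distrib] at h5
    rw [sub_eq_zero.1 h5]
  · intro j0 A hA
    have h3 : ∑ α : J e, (F e).coeff (α.1 : Fin (n + 1) →₀ ℕ) • U e α ^ N' e = 0 :=
      (Finset.sum_congr rfl fun α _ => hval e α).trans (hsum e)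
    have h4 := bor_cls hfin (hcard e) (hN.trans (hN' e)) (hU0 e)
      (fun α : J e => (F e).coeff (α.1 : Fin (n + 1) →₀ ℕ)) h3 j0 A hA
    rw [← h4]
    exact Finset.sum_congr rfl fun α _ => (hval e α).symm

/-- **Openness for algebroid points.** -/
theorem open_ana [Finite ι] {F : ι → MvPolynomial (Fin (n + 1)) ℂ} {r0 s N : ℕ}
    (hF : HighPowers s N F) (hN : NB r0 s ≤ N) {K : Type} [Field K] [Algebra ℂ K]
    {y : Fin (n + 1) → K} (hyF : ∀ e, val y (F e) = 0) {i0 : Fin (n + 1)} (hi0 : y i0 ≠ 0)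
    (hL : ¬ LinMv F y) (hW : ¬ WtMv F y) :
    ∃ Θ : Set K, Θ.Finite ∧ ∀ (E : Type) [Field E] [Algebra MK E] [Algebra ℂ E]
      [IsScalarTower ℂ MK E] [FiniteDimensional MK E], Module.finrank MK E ≤ r0 →
      ∀ S : Sp ℂ K E, (∀ ϑ ∈ Θ, ∃ z, S.T ϑ z) → ∀ y' : Fin (n + 1) → E,
      (∀ i, S.T (y i) (y' i)) → Alg0 i0 y' := by
  have hN1 : 1 ≤ N := (one_le_NB r0 s).trans hN
  rcases hF with h | h
  · choose r d l hr hd hFe using h
    obtain ⟨Θ, hΘ, hopen⟩ := open_warA (fun e => lt_of_lt_of_le hN1 (hd e)) hFe hyF hi0 hL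
    refine ⟨Θ, hΘ, fun E _ _ _ _ _ hfin S hS y' hy' => ?_⟩
    obtain ⟨h1, h2, h3⟩ := hopen E S hS y' hy'
    exact (ana_war hfin hN hr hd h1 h2).resolve_right h3
  · obtain ⟨Θ, hΘ, hopen⟩ := open_spA hyF hi0 hW
    refine ⟨Θ, hΘ, fun E _ _ _ _ _ hfin S hS y' hy' => ?_⟩
    obtain ⟨h1, h2, h3⟩ := hopen E S hS y' hy'
    exact (ana_sp hfin hN h h1 h2).resolve_right h3

end Pool.Agent.Y221.AP
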