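import Pool.Agent.Y221.AP.Main3
import Pool.Agent.W602.GT.Der
import Mathlib.FieldTheory.Differential.Basic

/-!
Extensions of the derivation, constants.
-/

set_option autoImplicit false
set_option maxHeartbeats 400000
set_option linter.unusedSectionVars false

namespace Pool.Agent.Y221.AP

open Filter Metric Set Topology Pool.Agent.W603.BP Polynomial IntermediateField
open Pool.Agent.Y221.AB (der_aeval)

theorem mero_id2 {f g : ℂ → ℂ} (hf : MeromorphicOn f Om) (hg : MeromorphicOn g Om) {x : ℂ}
    (hx : x ∈ Om) (h : ∃ᶠ z in 𝓝[≠] x, f z = g z) : ∀ᶠ z in cod, f z = g z := by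
  have h1 := mero_id (hf.sub hg) (x := x) hx
    (h.mono fun z hz => by rw [Pi.sub_apply, hz, sub_self])
  filter_upwards [h1] with z hz
  exact sub_eq_zero.1 hz

theorem freq_of_ev {p : ℂ → Prop} {x : ℂ} (h : ∀ᶠ z in 𝓝 x, p z) : ∃ᶠ z in 𝓝[≠] x, p z :=
  (h.filter_mono nhdsWithin_le_nhds).frequently

/-- an element with vanishing derivative is constant -/
theorem MD_zero {x : MK} (h : MD x = 0) : ∃ c : ℂ, x = algebraMap ℂ MK c := by
  obtain ⟨z₀, hz₀, hz₀O⟩ := ((mero_an (Fn_mero x)).and cod_Om).exists
  obtain ⟨c, hc⟩ : ∃ c, c = Fn x z₀ := ⟨_, rfl⟩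
  refine ⟨c, ?_⟩
  have h1 : ∀ᶠ w in 𝓝 z₀, deriv (Fn x) w = 0 := by
    have h2 := (Fn_MD (x := x) (z := z₀) hz₀O hz₀)
    filter_upwards [h2, Om_nhds hz₀O] with w hw hwO
    rw [← hw, h]
    exact Fn_zero ⟨w, hwO⟩
  have h2 : Fn x =ᶠ[𝓝 z₀] fun _ => Fn x z₀ := by
    obtain ⟨r, hr, hrb⟩ := Metric.eventually_nhds_iff_ball.1
      (h1.and (AnalyticAt.eventually_analyticAt hz₀))
    filter_upwards [ball_mem_nhds z₀ hr] with w hw
    refine (convex_ball z₀ r).is_const_of_fderivWithin_eq_zero (𝕜 := ℂ) (f := Fn x) ?_ ?_ hw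
      (mem_ball_self hr)
    · intro v hv
      exact (hrb v hv).2.differentiableAt.differentiableWithinAt
    · intro v hv
      rw [fderivWithin_of_isOpen isOpen_ball hv]
      ext
      simpa using (hrb v hv).1
  rw [← hc] at h2
  rw [← cl_Fn x, ← cl_const, cl_eq]
  have h3 : ∀ᶠ w in 𝓝 z₀, Fn x w = c := h2
  exact mero_id2 (Fn_mero x) (mconst _) hz₀O (freq_of_ev h3)

/-! ### the derivation of a finite extension -/

section ext

variable (E : Type) [Field E] [Algebra MK E] [Algebra ℂ E] [IsScalarTower ℂ MK E]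
  [FiniteDimensional MK E]

theorem exists_der : ∃ D₁ : Derivation ℂ E E,
    ∀ x : MK, D₁ (algebraMap MK E x) = algebraMap MK E (MDer x) := by
  let i1 : Differential MK := ⟨MDer.restrictScalars ℤ⟩
  let i2 := Differential.differentialFiniteDimensional MK E
  have i3 : DifferentialAlgebra MK E := Differential.differentialAlgebraFiniteDimensional
  have h1 : ∀ x : MK, Differential.deriv (algebraMap MK E x) = algebraMap MK E (MDer x) :=
    fun x => DifferentialAlgebra.deriv_algebraMap x
  have h2 : ∀ c : ℂ, Differential.deriv (algebraMap ℂ E c) = 0 := by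
    intro c
    rw [IsScalarTower.algebraMap_apply ℂ MK E, h1, MDer_apply, MD_const, map_zero]
  refine ⟨Derivation.mk'
    { toFun := fun x => Differential.deriv x
      map_add' := fun x y => map_add _ x y
      map_smul' := fun c x => by
        rw [Algebra.smul_def, Derivation.leibniz, h2, smul_zero, add_zero, RingHom.id_apply,
          smul_eq_mul]
        exact (Algebra.smul_def c _).symm }
    (fun x y => ?_), h1⟩
  exact Derivation.leibniz _ x y

variable {E}

/-- the constants of the derivation -/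
theorem const_ext {D₁ : Derivation ℂ E E}
    (hD : ∀ x : MK, D₁ (algebraMap MK E x) = algebraMap MK E (MDer x)) {y : E} (hy : D₁ y = 0) :
    ∃ c : ℂ, y = algebraMap ℂ E c := by
  have hint : IsIntegral MK y := Algebra.IsIntegral.isIntegral y
  set f := minpoly MK y with hf
  have h1 := der_aeval hD y f (n := f.natDegree + 1) (by omega)
  rw [minpoly.aeval, map_zero, hy, mul_zero, add_zero] at h1
  -- the polynomial with differentiated coefficients
  have hmon : f.Monic := minpoly.monic hint
  have hlead : MDer (f.coeff f.natDegree) = 0 := by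
    rw [hmon.coeff_natDegree]
    exact MDer.map_one_eq_zero
  let g : MK[X] := ∑ i ∈ Finset.range f.natDegree, C (MDer (f.coeff i)) * X ^ i
  have hg : aeval y g = 0 := by
    simp only [g]
    rw [map_sum]
    rw [Finset.sum_range_succ, hlead, map_zero, zero_mul, add_zero] at h1
    refine Eq.trans (Finset.sum_congr rfl fun i _ => ?_) h1.symm
    rw [map_mul, aeval_C, map_pow, aeval_X]
  have hgd : g.degree < f.degree := by
    rw [degree_eq_natDegree hmon.ne_zero]
    refine (degree_sum_le _ _).trans_lt ?_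
    rw [Finset.sup_lt_iff (WithBot.bot_lt_coe _)]
    intro i hi
    refine (degree_C_mul_X_pow_le _ _).trans_lt ?_
    exact_mod_cast Finset.mem_range.1 hi
  have hg0 : g = 0 := by
    by_contra hne
    exact (minpoly.degree_le_of_ne_zero MK y hne hg).not_gt hgd
  have hcoef : ∀ i, MDer (f.coeff i) = 0 := by
    intro i
    rcases lt_trichotomy i f.natDegree with h | h | h
    · have h2 := congrArg (fun q => coeff q i) hg0
      simp only [g, finsetSum_coeff, coeff_C_mul, coeff_X_pow, mul_ite, mul_one, mul_zero,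
        Finset.sum_ite_eq, Finset.mem_range, h, if_true, coeff_zero] at h2
      exact h2
    · rw [h, hlead]
    · rw [coeff_eq_zero_of_natDegree_lt h, map_zero]
  choose c hc using fun i => MD_zero (hcoef i)
  -- `y` is algebraic over the complex numbers
  have halg : IsAlgebraic ℂ y := by
    refine ⟨∑ i ∈ Finset.range (f.natDegree + 1), C (c i) * X ^ i, ?_, ?_⟩
    · intro h0
      have h2 := congrArg (fun q => coeff q f.natDegree) h0
      simp only [finsetSum_coeff, coeff_C_mul, coeff_X_pow, mul_ite, mul_one, mul_zero,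
        Finset.sum_ite_eq, Finset.mem_range, Nat.lt_succ_self, if_true, coeff_zero] at h2
      have h3 := hc f.natDegree
      rw [hmon.coeff_natDegree, h2, map_zero] at h3
      exact one_ne_zero h3
    · have h2 : aeval y f = 0 := minpoly.aeval MK y
      rw [aeval_eq_sum_range] at h2
      rw [map_sum]
      refine Eq.trans (Finset.sum_congr rfl fun i _ => ?_) h2
      rw [map_mul, aeval_C, map_pow, aeval_X, Algebra.smul_def, hc i,
        ← IsScalarTower.algebraMap_apply]
  exact Pool.Agent.W602.GT.const_of_algebraic halg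

end ext

section prim

variable {E : Type} [Field E] [Algebra MK E] [Algebra ℂ E] [IsScalarTower ℂ MK E]
  [FiniteDimensional MK E]

/-- a primitive element which is a complex linear combination -/
theorem exists_lin_prim {m : ℕ} (β : Fin (m + 1) → E) :
    ∃ s : Fin (m + 1) → ℂ, ∀ j, β j ∈ MK⟮∑ j, algebraMap ℂ E (s j) * β j⟯ := by
  classical
  let ρ : ℕ → E := fun t => ∑ j : Fin (m + 1), algebraMap ℂ E ((t : ℂ) ^ (j : ℕ)) * β j
  have hfin : Finite (IntermediateField MK E) :=
    Field.finite_intermediateField_of_exists_primitive_element MK E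
      (Field.exists_primitive_element MK E)
  obtain ⟨F₀, hF₀⟩ := Finite.exists_infinite_fiber fun t : ℕ => MK⟮ρ t⟯
  let em := Infinite.natEmbedding ((fun t : ℕ => MK⟮ρ t⟯) ⁻¹' {F₀})
  let t : Fin (m + 1) → ℕ := fun i => (em i : ℕ)
  have ht : ∀ i, MK⟮ρ (t i)⟯ = F₀ := fun i => (em i).2
  have htinj : Function.Injective t := by
    intro i j h
    have h1 := em.injective (Subtype.ext h)
    exact Fin.ext h1
  let V : Matrix (Fin (m + 1)) (Fin (m + 1)) ℂ := Matrix.vandermonde fun i => (t i : ℂ)
  have hV : V.det ≠ 0 := by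
    rw [Matrix.det_vandermonde_ne_zero_iff]
    intro i j h
    have h1 : ((t i : ℕ) : ℂ) = ((t j : ℕ) : ℂ) := h
    exact htinj (by exact_mod_cast h1)
  have hmem : ∀ i, ρ (t i) ∈ F₀ := by
    intro i
    rw [← ht i]
    exact mem_adjoin_simple_self MK _
  have hβ : ∀ j, β j = ∑ i, algebraMap ℂ E (V⁻¹ j i) * ρ (t i) := by
    intro j
    have h1 : V⁻¹ * V = 1 := Matrix.nonsing_inv_mul V (isUnit_iff_ne_zero.2 hV)
    have h2 : ∑ i, algebraMap ℂ E (V⁻¹ j i) * ρ (t i) =
        ∑ l, algebraMap ℂ E ((V⁻¹ * V) j l) * β l := by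
      simp only [ρ, Finset.mul_sum]
      rw [Finset.sum_comm]
      refine Finset.sum_congr rfl fun l _ => ?_
      rw [Matrix.mul_apply, map_sum, Finset.sum_mul]
      refine Finset.sum_congr rfl fun i _ => ?_
      rw [map_mul, mul_assoc]
      rfl
    rw [h2, h1, Finset.sum_eq_single j]
    · rw [Matrix.one_apply_eq, map_one, one_mul]
    · intro l _ hl
      rw [Matrix.one_apply_ne (Ne.symm hl), map_zero, zero_mul]
    · intro h
      exact absurd (Finset.mem_univ j) h
  refine ⟨fun j => ((t 0 : ℕ) : ℂ) ^ (j : ℕ), fun j => ?_⟩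
  change β j ∈ MK⟮ρ (t 0)⟯
  rw [ht 0, hβ j]
  refine sum_mem fun i _ => mul_mem ?_ (hmem i)
  rw [IsScalarTower.algebraMap_apply ℂ MK E]
  exact F₀.algebraMap_mem _

end prim

end Pool.Agent.Y221.AP
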