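import Pool.Agent.Y221.AP.Good
import Pool.Agent.Y221.AB.Eng

/-!
The application of the second main theorem for normalized families of meromorphic functions.
-/

set_option autoImplicit false
set_option maxHeartbeats 400000

namespace Pool.Agent.Y221.AP

open Filter Metric Set Topology Pool.Agent.W602.NC Pool.Agent.W602.TL
  Pool.Agent.TH152.HY Pool.Agent.W601.PH Pool.Agent.H159R3.NV Pool.Agent.W603.BP
open Pool.Agent.Y221.AB (order_ge two_sided)

variable {p : ℕ} {U : Fin (p + 1) → ℂ → ℂ} {u : Fin (p + 1) → MK} {e : MK}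

theorem Nrm.an (h : Nrm u e U) (i : Fin (p + 1)) {z : ℂ} (hz : z ∈ Ext 2) :
    AnalyticAt ℂ (U i) z := by
  rw [h.eq]
  exact h.reg i z hz

theorem ball_Ext {z₀ : ℂ} (hz : z₀ ∈ Ext 2) : ∃ r, 0 < r ∧ ball z₀ r ⊆ Ext 2 :=
  Metric.isOpen_iff.1 (Ext_open 2) z₀ hz

/-- a point where no member vanishes is the center of a calm disc -/
theorem calm_at (h : Nrm u e U) {z₀ : ℂ} (hz₀ : z₀ ∈ Ext 2) (hz : ∀ i, U i z₀ ≠ 0) :
    ∃ ε B, 0 < ε ∧ ε ≤ 1 ∧ 1 ≤ B ∧ CalmO U z₀ ε B := by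
  obtain ⟨r', hr', hrE⟩ := ball_Ext hz₀
  have h1 : ∀ i, ∀ᶠ w in 𝓝 z₀, U i w ≠ 0 := fun i =>
    (h.an i hz₀).continuousAt.eventually_ne (hz i)
  have h2 : ∀ i j, ∀ᶠ w in 𝓝 z₀, ‖U j w / U i w‖ < 2 * ‖U j z₀ / U i z₀‖ := by
    intro i j
    have h3 : ContinuousAt (fun w => ‖U j w / U i w‖) z₀ :=
      ((h.an j hz₀).continuousAt.div (h.an i hz₀).continuousAt (hz i)).norm
    refine h3.eventually_lt_const ?_
    have : 0 < ‖U j z₀ / U i z₀‖ := norm_pos_iff.2 (div_ne_zero (hz j) (hz i))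
    simp only
    linarith
  have h3 : ∀ᶠ w in 𝓝 z₀, (∀ i, U i w ≠ 0) ∧ ∀ i j, ‖U j w / U i w‖ < 2 * ‖U j z₀ / U i z₀‖ :=
    (eventually_all.2 h1).and (eventually_all.2 fun i => eventually_all.2 fun j => h2 i j)
  obtain ⟨r, hr, hrb⟩ := Metric.eventually_nhds_iff_ball.1 h3
  have hm1 := min_le_left (min (r / 2) (r' / 2)) (1 : ℝ)
  have hm2 := min_le_left (r / 2) (r' / 2)
  have hm3 := min_le_right (r / 2) (r' / 2)
  refine ⟨min (min (r / 2) (r' / 2)) 1, 2, by positivity, min_le_right _ _, by norm_num,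
    ⟨?_, ?_⟩, ?_⟩
  · intro i w hw
    refine (hrb w ?_).1 i
    rw [mem_closedBall] at hw
    rw [mem_ball]
    linarith
  · intro i j w hw
    refine ((hrb w ?_).2 i j).le
    rw [mem_closedBall] at hw
    rw [mem_ball]
    linarith
  · intro w hw
    refine hrE ?_
    rw [mem_closedBall] at hw
    rw [mem_ball]
    linarith

/-- calm discs near a point -/
theorem calm_near (h : Nrm u e U) {z₀ : ℂ} (hz₀ : z₀ ∈ Ext 2) {a : Fin (p + 1) → ℕ}
    (ha : ∀ i, analyticOrderAt (U i) z₀ = a i) :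
    ∃ B₀ : ℝ, 1 ≤ B₀ ∧ ∀ᶠ z in 𝓝[≠] z₀, CalmO U z (‖z - z₀‖ / 2) B₀ := by
  choose l L hl hL hb using fun i => two_sided (h.an i hz₀) (ha i)
  obtain ⟨r, hr, hrb⟩ := Metric.eventually_nhds_iff_ball.1
    ((eventually_all.2 hb).and ((Ext_open 2).mem_nhds hz₀))
  have hc : ∀ i j, 0 ≤ (L j * L i / (l i * l j)) * 2 ^ (a i + a j) := fun i j => by
    have := hl i; have := hl j; have := hL i; have := hL j
    positivity
  refine ⟨1 + ∑ i, ∑ j, (L j * L i / (l i * l j)) * 2 ^ (a i + a j), ?_, ?_⟩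
  · have := Finset.sum_nonneg fun i (_ : i ∈ Finset.univ) =>
      Finset.sum_nonneg fun j (_ : j ∈ Finset.univ) => hc i j
    linarith
  have hball : ∀ᶠ z in 𝓝[≠] z₀, z ∈ ball z₀ (r / 2) :=
    nhdsWithin_le_nhds (ball_mem_nhds z₀ (by linarith))
  filter_upwards [hball, self_mem_nhdsWithin] with z hz hzne
  have hd : 0 < ‖z - z₀‖ := norm_pos_iff.2 (sub_ne_zero.2 hzne)
  rw [mem_ball, dist_eq_norm] at hz
  have hw : ∀ w ∈ closedBall z (‖z - z₀‖ / 2), w ∈ ball z₀ r ∧ ‖z - z₀‖ / 2 ≤ ‖w - z₀‖ ∧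
      ‖w - z₀‖ ≤ 2 * ‖z - z₀‖ := by
    intro w hw
    rw [mem_closedBall, dist_eq_norm] at hw
    have h1 : ‖w - z₀‖ ≤ ‖w - z‖ + ‖z - z₀‖ := by
      have := norm_add_le (w - z) (z - z₀)
      rwa [sub_add_sub_cancel] at this
    have h2 : ‖z - z₀‖ ≤ ‖w - z‖ + ‖w - z₀‖ := by
      have := norm_sub_le (w - z₀) (w - z)
      rw [show w - z₀ - (w - z) = z - z₀ by ring] at this
      linarith
    refine ⟨?_, by linarith, by linarith⟩
    rw [mem_ball, dist_eq_norm]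
    linarith
  have hzz : z ∈ closedBall z (‖z - z₀‖ / 2) := mem_closedBall_self (by linarith)
  refine ⟨⟨fun i w hww => ?_, fun i j w hww => ?_⟩, fun w hww => (hrb w (hw w hww).1).2⟩
  · obtain ⟨h1, h2, -⟩ := hw w hww
    have h3 := ((hrb w h1).1 i).1
    have h4 : 0 < ‖w - z₀‖ := by linarith
    have h5 : 0 < l i * ‖w - z₀‖ ^ a i := mul_pos (hl i) (pow_pos h4 _)
    exact norm_pos_iff.1 (h5.trans_le h3)
  · obtain ⟨h1, h2, h2'⟩ := hw w hww
    obtain ⟨h3, -, -⟩ := hw z hzz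
    have hw0 : 0 < ‖w - z₀‖ := by linarith
    obtain ⟨wi1, wi2⟩ := (hrb w h1).1 i
    obtain ⟨wj1, wj2⟩ := (hrb w h1).1 j
    obtain ⟨zi1, zi2⟩ := (hrb z h3).1 i
    obtain ⟨zj1, zj2⟩ := (hrb z h3).1 j
    have li := hl i
    have lj := hl j
    have Li := hL i
    have Lj := hL j
    have pi : 0 < ‖U i w‖ := (mul_pos li (pow_pos hw0 _)).trans_le wi1
    have qi : 0 < ‖U i z‖ := (mul_pos li (pow_pos hd _)).trans_le zi1
    have hkey : ‖U j w‖ / ‖U i w‖ ≤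
        ((L j * L i / (l i * l j)) * 2 ^ (a i + a j)) * (‖U j z‖ / ‖U i z‖) := by
      rw [← mul_div_assoc, div_le_div_iff₀ pi qi]
      have e1 : ‖U j w‖ ≤ L j * (2 ^ a j * ‖z - z₀‖ ^ a j) := by
        refine wj2.trans ?_
        rw [← mul_pow]
        gcongr
      have e2 : ‖U i z‖ ≤ L i * (2 ^ a i * ‖w - z₀‖ ^ a i) := by
        refine zi2.trans ?_
        rw [← mul_pow]
        gcongr
        linarith
      calc ‖U j w‖ * ‖U i z‖ ≤ (L j * (2 ^ a j * ‖z - z₀‖ ^ a j)) *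
            (L i * (2 ^ a i * ‖w - z₀‖ ^ a i)) :=
            mul_le_mul e1 e2 (norm_nonneg _) (by positivity)
        _ = ((L j * L i / (l i * l j)) * 2 ^ (a i + a j)) * (l j * ‖z - z₀‖ ^ a j) *
            (l i * ‖w - z₀‖ ^ a i) := by
            rw [pow_add]
            field_simp
        _ ≤ ((L j * L i / (l i * l j)) * 2 ^ (a i + a j)) * ‖U j z‖ * ‖U i w‖ := by
            gcongr
    rw [norm_div, norm_div]
    refine hkey.trans ?_
    have h6 : (L j * L i / (l i * l j)) * 2 ^ (a i + a j) ≤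
        1 + ∑ i, ∑ j, (L j * L i / (l i * l j)) * 2 ^ (a i + a j) := by
      have s1 : (L j * L i / (l i * l j)) * 2 ^ (a i + a j) ≤
          ∑ j, (L j * L i / (l i * l j)) * 2 ^ (a i + a j) :=
        Finset.single_le_sum (f := fun j => (L j * L i / (l i * l j)) * 2 ^ (a i + a j))
          (fun j _ => hc i j) (Finset.mem_univ j)
      have s2 : ∑ j, (L j * L i / (l i * l j)) * 2 ^ (a i + a j) ≤
          ∑ i, ∑ j, (L j * L i / (l i * l j)) * 2 ^ (a i + a j) :=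
        Finset.single_le_sum (f := fun i => ∑ j, (L j * L i / (l i * l j)) * 2 ^ (a i + a j))
          (fun i _ => Finset.sum_nonneg fun j _ => hc i j) (Finset.mem_univ i)
      linarith
    gcongr

end Pool.Agent.Y221.AP
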