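import Mathlib
import Pool.Agent.W603.BP.Tame

/-!
The field of meromorphic functions on the exterior of the unit disc.
-/

set_option autoImplicit false

namespace Pool.Agent.Y221.AP

open Filter Topology Set Pool.Agent.W603.BP

/-- the exterior of the unit disc -/
abbrev Om : Set ℂ := Ext 1

theorem Om_open : IsOpen Om := Ext_open 1

theorem Om_pre : IsPreconnected Om := Ext_preconn one_pos

theorem Om_nhds {z : ℂ} (hz : z ∈ Om) : Om ∈ 𝓝 z := Om_open.mem_nhds hz

/-- outside of a closed discrete subset of `Om` -/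
noncomputable def cod : Filter ℂ := ⨆ x ∈ Om, 𝓝[≠] x

theorem cod_iff {p : ℂ → Prop} : (∀ᶠ z in cod, p z) ↔ ∀ x ∈ Om, ∀ᶠ z in 𝓝[≠] x, p z := by
  unfold cod
  simp only [eventually_iSup]

theorem cod_ev {p : ℂ → Prop} (h : ∀ᶠ z in cod, p z) {x : ℂ} (hx : x ∈ Om) :
    ∀ᶠ z in 𝓝[≠] x, p z := cod_iff.1 h x hx

theorem cod_of_ev {p : ℂ → Prop} (h : ∀ x ∈ Om, ∀ᶠ z in 𝓝[≠] x, p z) : ∀ᶠ z in cod, p z :=
  cod_iff.2 h

theorem cod_Om : ∀ᶠ z in cod, z ∈ Om :=
  cod_of_ev fun _ hx => nhdsWithin_le_nhds (Om_nhds hx)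

theorem two_mem : (2 : ℂ) ∈ Om := by
  change (1 : ℝ) < ‖(2 : ℂ)‖
  norm_num

instance : cod.NeBot := by
  constructor
  intro h
  have h1 : ∀ᶠ z in cod, False := by rw [h]; exact mem_bot
  have h2 := cod_ev h1 two_mem
  obtain ⟨z, hz⟩ := h2.exists
  exact hz

theorem mero_top {f : ℂ → ℂ} (hf : MeromorphicOn f Om) {x : ℂ} (hx : x ∈ Om)
    (h : ∃ᶠ z in 𝓝[≠] x, f z = 0) {y : ℂ} (hy : y ∈ Om) : ∀ᶠ z in 𝓝[≠] y, f z = 0 := by
  have h1 := (hf x hx).frequently_zero_iff_eventuallyEq_zero.1 h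
  have h2 : meromorphicOrderAt f x = ⊤ := meromorphicOrderAt_eq_top_iff.2 h1
  by_contra h3
  have h4 : meromorphicOrderAt f y ≠ ⊤ := fun h5 => h3 (meromorphicOrderAt_eq_top_iff.1 h5)
  exact (hf.meromorphicOrderAt_ne_top_of_isPreconnected Om_pre hy hx h4) h2

/-- identity theorem -/
theorem mero_id {f : ℂ → ℂ} (hf : MeromorphicOn f Om) {x : ℂ} (hx : x ∈ Om)
    (h : ∃ᶠ z in 𝓝[≠] x, f z = 0) : ∀ᶠ z in cod, f z = 0 :=
  cod_of_ev fun _ hy => mero_top hf hx h hy

theorem mero_ne {f : ℂ → ℂ} (hf : MeromorphicOn f Om) (h : ¬ ∀ᶠ z in cod, f z = 0) :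
    ∀ᶠ z in cod, f z ≠ 0 := by
  apply cod_of_ev
  intro x hx
  by_contra h1
  exact h (mero_id hf hx (by simpa using h1))

theorem mero_an {f : ℂ → ℂ} (hf : MeromorphicOn f Om) : ∀ᶠ z in cod, AnalyticAt ℂ f z :=
  cod_of_ev fun x hx => (hf x hx).eventually_analyticAt

theorem mconst (c : ℂ) : MeromorphicOn (fun _ => c) Om := fun z _ => MeromorphicAt.const c z

/-- the ring of meromorphic functions (as functions) -/
def MerS : Subalgebra ℂ (ℂ → ℂ) where
  carrier := {f | MeromorphicOn f Om}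
  mul_mem' := fun hf hg => MeromorphicOn.mul hf hg
  add_mem' := fun hf hg => MeromorphicOn.add hf hg
  algebraMap_mem' := fun c => mconst c

/-- the ideal of functions vanishing outside of a discrete set -/
def MJ : Ideal MerS where
  carrier := {f | ∀ᶠ z in cod, f.1 z = 0}
  add_mem' := by
    intro f g hf hg
    change ∀ᶠ z in cod, (f + g).1 z = 0
    have hf' : ∀ᶠ z in cod, f.1 z = 0 := hf
    have hg' : ∀ᶠ z in cod, g.1 z = 0 := hg
    filter_upwards [hf', hg'] with z h1 h2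
    change f.1 z + g.1 z = 0
    rw [h1, h2, add_zero]
  zero_mem' := by
    change ∀ᶠ z in cod, (0 : MerS).1 z = 0
    exact Eventually.of_forall fun _ => rfl
  smul_mem' := by
    intro c f hf
    change ∀ᶠ z in cod, (c * f).1 z = 0
    have hf' : ∀ᶠ z in cod, f.1 z = 0 := hf
    filter_upwards [hf'] with z h1
    change c.1 z * f.1 z = 0
    rw [h1, mul_zero]

theorem mem_MJ {f : MerS} : f ∈ MJ ↔ ∀ᶠ z in cod, f.1 z = 0 := Iff.rfl

instance : MJ.IsMaximal := by
  rw [Ideal.isMaximal_iff]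
  constructor
  · intro h
    have h1 : ∀ᶠ z in cod, (1 : ℂ) = 0 := h
    obtain ⟨_, h2⟩ := h1.exists
    exact one_ne_zero h2
  · intro I x hI hx hxI
    have h1 := mero_ne x.2 hx
    have h2 : (⟨(x.1)⁻¹, MeromorphicOn.inv x.2⟩ : MerS) * x ∈ I := I.mul_mem_left _ hxI
    have h3 : (1 : MerS) - (⟨(x.1)⁻¹, MeromorphicOn.inv x.2⟩ : MerS) * x ∈ MJ := by
      rw [mem_MJ]
      filter_upwards [h1] with z hz
      change 1 - (x.1 z)⁻¹ * x.1 z = 0
      rw [inv_mul_cancel₀ hz, sub_self]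
    have h4 := I.add_mem (hI h3) h2
    rwa [sub_add_cancel] at h4

/-- the field of meromorphic functions -/
abbrev MK : Type := MerS ⧸ MJ

noncomputable instance : Field MK := Ideal.Quotient.field MJ

/-- the class of a meromorphic function -/
noncomputable def cl (f : ℂ → ℂ) (hf : MeromorphicOn f Om) : MK := Ideal.Quotient.mk MJ ⟨f, hf⟩

theorem cl_eq {f g : ℂ → ℂ} {hf : MeromorphicOn f Om} {hg : MeromorphicOn g Om} :
    cl f hf = cl g hg ↔ ∀ᶠ z in cod, f z = g z := by
  unfold cl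
  rw [Ideal.Quotient.eq, mem_MJ]
  constructor
  · intro h
    filter_upwards [h] with z hz
    exact sub_eq_zero.1 hz
  · intro h
    filter_upwards [h] with z hz
    exact sub_eq_zero.2 hz

theorem cl_add {f g : ℂ → ℂ} (hf : MeromorphicOn f Om) (hg : MeromorphicOn g Om) :
    cl f hf + cl g hg = cl (f + g) (hf.add hg) := rfl

theorem cl_mul {f g : ℂ → ℂ} (hf : MeromorphicOn f Om) (hg : MeromorphicOn g Om) :
    cl f hf * cl g hg = cl (f * g) (hf.mul hg) := rfl

theorem cl_const (c : ℂ) : cl (fun _ => c) (mconst c) = algebraMap ℂ MK c := rfl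

theorem cl_eq_zero {f : ℂ → ℂ} {hf : MeromorphicOn f Om} :
    cl f hf = 0 ↔ ∀ᶠ z in cod, f z = 0 := by
  have h1 : (0 : MK) = cl (fun _ => 0) (mconst 0) := by
    rw [cl_const, map_zero]
  rw [h1, cl_eq]

theorem cl_inv {f : ℂ → ℂ} (hf : MeromorphicOn f Om) : (cl f hf)⁻¹ = cl f⁻¹ hf.inv := by
  by_cases h : cl f hf = 0
  · rw [h, inv_zero]
    symm
    rw [cl_eq_zero] at h ⊢
    filter_upwards [h] with z hz
    rw [Pi.inv_apply, hz, inv_zero]
  · apply inv_eq_of_mul_eq_one_right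
    rw [cl_mul]
    have h1 : (1 : MK) = cl (fun _ => 1) (mconst 1) := by
      rw [cl_const, map_one]
    rw [h1, cl_eq]
    have h2 := mero_ne hf (fun h0 => h (cl_eq_zero.2 h0))
    filter_upwards [h2] with z hz
    rw [Pi.mul_apply, Pi.inv_apply, mul_inv_cancel₀ hz]

theorem cl_surj (x : MK) : ∃ f, ∃ hf : MeromorphicOn f Om, cl f hf = x := by
  obtain ⟨⟨f, hf⟩, h⟩ := Ideal.Quotient.mk_surjective x
  exact ⟨f, hf, h⟩

instance : CharZero MK := charZero_of_injective_algebraMap (algebraMap ℂ MK).injective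

/-! ### the derivation -/

theorem mderiv {f : ℂ → ℂ} (hf : MeromorphicOn f Om) : MeromorphicOn (deriv f) Om :=
  fun z hz => (hf z hz).deriv

theorem deriv_cod {f g : ℂ → ℂ} (h : ∀ᶠ z in cod, f z = g z) :
    ∀ᶠ z in cod, deriv f z = deriv g z := by
  apply cod_of_ev
  intro x hx
  have h1 := cod_ev h hx
  have h2 : ∀ᶠ z in 𝓝[≠] x, ∀ᶠ w in 𝓝 z, f w = g w := by
    rw [eventually_nhdsWithin_iff] at h1 ⊢
    filter_upwards [h1.eventually_nhds] with z hz hzx
    filter_upwards [hz, eventually_ne_nhds (show z ≠ x from hzx)] with w hw hw2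
    exact hw hw2
  filter_upwards [h2] with z hz
  exact Filter.EventuallyEq.deriv_eq hz

/-- the derivation of the field of meromorphic functions -/
noncomputable def MD (x : MK) : MK :=
  cl (deriv (Classical.choose (cl_surj x)))
    (mderiv (Classical.choose (Classical.choose_spec (cl_surj x))))

theorem MD_cl {f : ℂ → ℂ} (hf : MeromorphicOn f Om) : MD (cl f hf) = cl (deriv f) (mderiv hf) := by
  unfold MD
  rw [cl_eq]
  apply deriv_cod
  exact cl_eq.1 (Classical.choose_spec (Classical.choose_spec (cl_surj (cl f hf))))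

theorem MD_add (x y : MK) : MD (x + y) = MD x + MD y := by
  obtain ⟨f, hf, rfl⟩ := cl_surj x
  obtain ⟨g, hg, rfl⟩ := cl_surj y
  rw [cl_add, MD_cl, MD_cl, MD_cl, cl_add, cl_eq]
  filter_upwards [mero_an hf, mero_an hg] with z h1 h2
  rw [Pi.add_apply]
  exact deriv_add h1.differentiableAt h2.differentiableAt

theorem MD_mul (x y : MK) : MD (x * y) = x * MD y + y * MD x := by
  obtain ⟨f, hf, rfl⟩ := cl_surj x
  obtain ⟨g, hg, rfl⟩ := cl_surj y
  rw [cl_mul, MD_cl, MD_cl, MD_cl, cl_mul, cl_mul, cl_add, cl_eq]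
  filter_upwards [mero_an hf, mero_an hg] with z h1 h2
  rw [Pi.add_apply, Pi.mul_apply, Pi.mul_apply]
  rw [deriv_mul h1.differentiableAt h2.differentiableAt]
  ring

theorem MD_const (c : ℂ) : MD (algebraMap ℂ MK c) = 0 := by
  rw [← cl_const, MD_cl, cl_eq_zero]
  exact Eventually.of_forall fun z => by simp

/-- the derivation as a Mathlib derivation -/
noncomputable def MDer : Derivation ℂ MK MK :=
  Derivation.mk'
    { toFun := MD
      map_add' := MD_add
      map_smul' := fun c x => by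
        rw [Algebra.smul_def, MD_mul, MD_const, mul_zero, add_zero, RingHom.id_apply,
          Algebra.smul_def] }
    (fun x y => by
      change MD (x * y) = x • MD y + y • MD x
      rw [MD_mul, smul_eq_mul, smul_eq_mul])

theorem MDer_apply (x : MK) : MDer x = MD x := rfl

theorem mero_eval {σ : Type} [Fintype σ] {v : σ → ℂ → ℂ} (hv : ∀ j, MeromorphicOn (v j) Om)
    (P : MvPolynomial σ ℂ) : MeromorphicOn (fun z => MvPolynomial.eval (fun j => v j z) P) Om := by
  induction P using MvPolynomial.induction_on with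
  | C a => simpa using mconst a
  | add p q hp hq =>
    simp only [map_add]
    exact hp.add hq
  | mul_X p j hp =>
    simp only [map_mul, MvPolynomial.eval_X]
    exact hp.mul (hv j)

/-- evaluation at a point -/
def evS (z : ℂ) : MerS →ₐ[ℂ] ℂ := (Pi.evalAlgHom ℂ (fun _ : ℂ => ℂ) z).comp MerS.val

/-- an identity on a codiscrete set holds at all points where both sides are continuous -/
theorem eq_of_cod {f g : ℂ → ℂ} (h : ∀ᶠ z in cod, f z = g z) {x : ℂ} (hx : x ∈ Om)
    (hf : ContinuousAt f x) (hg : ContinuousAt g x) : f x = g x := by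
  have h1 : f =ᶠ[𝓝[≠] x] g := cod_ev h hx
  exact ((hf.eventuallyEq_nhds_iff_eventuallyEq_nhdsNE hg).1 h1).self_of_nhds

end Pool.Agent.Y221.AP
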