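import Pool.Agent.Y221.AP.Fn
import Pool.Agent.Y221.AB.Alg
import Pool.Agent.Y221.AB.Good
import Pool.Agent.TH152.HY.Ext

/-!
The filtration of the field of meromorphic functions given by a normalized family of functions.
-/

set_option autoImplicit false
set_option maxHeartbeats 400000

namespace Pool.Agent.Y221.AP

open Filter Metric Real Set Topology Pool.Agent.W602.NC Pool.Agent.W602.TL
  Pool.Agent.TH152.HY Pool.Agent.W603.BP
open Pool.Agent.Y221.AB (Filt Tq one_le_ratio one_le_Tq ratio_calm Tq_calm calm_sub)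

variable {p : ℕ} {U : Fin (p + 1) → ℂ → ℂ}

theorem sub_Om : Ext 2 ⊆ Om := Ext_mono (by norm_num)

/-- calm discs outside of the disc of radius two -/
def CalmO (U : Fin (p + 1) → ℂ → ℂ) (z : ℂ) (ε B : ℝ) : Prop :=
  Calm U z ε B ∧ closedBall z ε ⊆ Ext 2

theorem CalmO.mem {z : ℂ} {ε B : ℝ} (hε : 0 < ε) (hc : CalmO U z ε B) : z ∈ Om :=
  sub_Om (hc.2 (mem_closedBall_self hε.le))

theorem calmO_sub {z : ℂ} {ε B : ℝ} (hε : 0 < ε) (hB : 1 ≤ B) (hc : CalmO U z ε B) {w : ℂ}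
    (hw : w ∈ closedBall z (ε / 2)) : CalmO U w (ε / 2) (B * B) := by
  refine ⟨calm_sub hε hB hc.1 hw, fun v hv => hc.2 ?_⟩
  rw [mem_closedBall] at hv hw ⊢
  have := dist_triangle v w z
  linarith

/-- the elements which are bounded in terms of the family -/
def Good (U : Fin (p + 1) → ℂ → ℂ) (i0 i1 : Fin (p + 1)) (A : ℕ) (x : MK) : Prop :=
  ∃ C, 0 ≤ C ∧ ∀ z ε B, 0 < ε → ε ≤ 1 → 1 ≤ B → CalmO U z ε B →
    Reg x z ∧ ‖Fn x z‖ ≤ C * ((B / ε) * Tq U i0 i1 z) ^ A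

theorem one_le_BT {i0 i1 : Fin (p + 1)} {z : ℂ} {ε B : ℝ} (hε : 0 < ε) (hε1 : ε ≤ 1) (hB : 1 ≤ B)
    (hc : CalmO U z ε B) : 1 ≤ (B / ε) * Tq U i0 i1 z :=
  Pool.Agent.Y221.AB.one_le_BT hε hε1 hB hc.1

theorem good_der {i0 i1 : Fin (p + 1)} {A : ℕ} {x : MK} (hx : Good U i0 i1 A x) :
    Good U i0 i1 (4 * A + 1) (MDer x) := by
  obtain ⟨C, hC, h⟩ := hx
  refine ⟨2 * C * 2 ^ A, by positivity, ?_⟩
  intro z ε B hε hε1 hB hcO
  have hc := hcO.1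
  have hzO : z ∈ Om := hcO.mem hε
  have hzz : z ∈ closedBall z ε := mem_closedBall_self hε.le
  have hreg := (h z ε B hε hε1 hB hcO).1
  rw [MDer_apply]
  refine ⟨hreg.MD hzO, ?_⟩
  have hBB : 1 ≤ B * B := one_le_mul_of_one_le_of_one_le hB hB
  have hT := one_le_Tq (hc.1 i0 z hzz) (hc.1 i1 z hzz)
  set T := Tq U i0 i1 z with hTd
  set Y := (B / ε) * T with hY
  have hY1 : 1 ≤ Y := one_le_BT hε hε1 hB hcO
  have hpt : ∀ w ∈ closedBall z (ε / 2), Reg x w ∧ ‖Fn x w‖ ≤ C * (2 ^ A * Y ^ (4 * A)) := by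
    intro w hw
    have hwz : w ∈ closedBall z ε := closedBall_subset_closedBall (by linarith) hw
    obtain ⟨h1, h2⟩ := h w (ε / 2) (B * B) (by linarith) (by linarith) hBB (calmO_sub hε hB hcO hw)
    refine ⟨h1, h2.trans ?_⟩
    have h3 := Tq_calm hB hc hzz i0 i1 hwz
    have h4 : (B * B / (ε / 2)) * Tq U i0 i1 w ≤ 2 * Y ^ 4 := by
      calc (B * B / (ε / 2)) * Tq U i0 i1 w ≤ (B * B / (ε / 2)) * (B * B * T) := by gcongr
        _ = 2 * (B ^ 4 * (1 / ε) * T) := by field_simp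
        _ ≤ 2 * (B ^ 4 * (1 / ε) ^ 4 * T ^ 4) := by
            have e1 : 1 / ε ≤ (1 / ε) ^ 4 :=
              le_self_pow₀ ((one_le_div hε).2 hε1) (by norm_num)
            have e2 : T ≤ T ^ 4 := le_self_pow₀ hT (by norm_num)
            gcongr
        _ = _ := by rw [hY]; ring
    have h5 : 0 ≤ (B * B / (ε / 2)) * Tq U i0 i1 w := by
      have : 1 ≤ Tq U i0 i1 w := one_le_Tq (hc.1 i0 w hwz) (hc.1 i1 w hwz)
      positivity
    calc C * ((B * B / (ε / 2)) * Tq U i0 i1 w) ^ A ≤ C * (2 * Y ^ 4) ^ A := by gcongr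
      _ = _ := by rw [mul_pow, ← pow_mul]
  have hd : DiffContOnCl ℂ (Fn x) (ball z (ε / 2)) := by
    refine DifferentiableOn.diffContOnCl_ball (U := closedBall z (ε / 2)) ?_ subset_rfl
    intro w hw
    exact (hpt w hw).1.differentiableAt.differentiableWithinAt
  have h6 := Complex.norm_deriv_le_of_forall_mem_sphere_norm_le (by linarith : 0 < ε / 2) hd
    (fun w hw => (hpt w (sphere_subset_closedBall hw)).2)
  have h7 : Fn (MD x) z = deriv (Fn x) z := (Fn_MD hzO hreg).self_of_nhds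
  rw [h7]
  refine h6.trans ?_
  have h8 : 1 / ε ≤ Y := by
    rw [hY]
    calc 1 / ε = (1 / ε) * 1 := (mul_one _).symm
      _ ≤ (B / ε) * T := by gcongr
  calc C * (2 ^ A * Y ^ (4 * A)) / (ε / 2) = 2 * C * 2 ^ A * (Y ^ (4 * A) * (1 / ε)) := by
        field_simp
    _ ≤ 2 * C * 2 ^ A * (Y ^ (4 * A) * Y) := by gcongr
    _ = _ := by rw [pow_succ]

theorem filt_good (i0 i1 : Fin (p + 1)) : Filt MDer (Good U i0 i1) where
  mono := by
    rintro A A' x hA ⟨C, hC, h⟩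
    refine ⟨C, hC, fun z ε B hε hε1 hB hc => ⟨(h z ε B hε hε1 hB hc).1, ?_⟩⟩
    refine (h z ε B hε hε1 hB hc).2.trans ?_
    have := one_le_BT (i0 := i0) (i1 := i1) hε hε1 hB hc
    gcongr
  add := by
    rintro A x y ⟨C, hC, h⟩ ⟨C', hC', h'⟩
    refine ⟨C + C', by positivity, fun z ε B hε hε1 hB hc => ?_⟩
    obtain ⟨r1, b1⟩ := h z ε B hε hε1 hB hc
    obtain ⟨r2, b2⟩ := h' z ε B hε hε1 hB hc
    have hz : z ∈ Om := hc.mem hε
    refine ⟨r1.add r2 hz, ?_⟩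
    have e : Fn (x + y) z = Fn x z + Fn y z := (Fn_add hz r1 r2).self_of_nhds
    rw [e, add_mul]
    exact (norm_add_le _ _).trans (add_le_add b1 b2)
  mul := by
    rintro A A' x y ⟨C, hC, h⟩ ⟨C', hC', h'⟩
    refine ⟨C * C', by positivity, fun z ε B hε hε1 hB hc => ?_⟩
    obtain ⟨r1, b1⟩ := h z ε B hε hε1 hB hc
    obtain ⟨r2, b2⟩ := h' z ε B hε hε1 hB hc
    have hz : z ∈ Om := hc.mem hε
    refine ⟨r1.mul r2 hz, ?_⟩
    have e : Fn (x * y) z = Fn x z * Fn y z := (Fn_mul hz r1 r2).self_of_nhds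
    have h1 := one_le_BT (i0 := i0) (i1 := i1) hε hε1 hB hc
    rw [e, norm_mul, pow_add]
    calc _ ≤ _ := mul_le_mul b1 b2 (norm_nonneg _) (by positivity)
      _ = _ := by ring
  const := by
    intro c
    refine ⟨‖c‖, norm_nonneg _, fun z ε B hε hε1 hB hc => ⟨reg_const c (hc.mem hε), ?_⟩⟩
    have e : Fn (algebraMap ℂ MK c) z = c := (Fn_const c (hc.mem hε)).self_of_nhds
    rw [e, pow_zero, mul_one]
  der := fun h => good_der h

/-- a family of meromorphic functions, normalized by a factor, outside of the disc of radius two -/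
structure Nrm (u : Fin (p + 1) → MK) (e : MK) (U : Fin (p + 1) → ℂ → ℂ) : Prop where
  ne : e ≠ 0
  eq : ∀ i, U i = Fn (e * u i)
  reg : ∀ i, ∀ z ∈ Ext 2, Reg (e * u i) z
  nz : ∀ z ∈ Ext 2, ∃ i, U i z ≠ 0

variable {u : Fin (p + 1) → MK} {e : MK}

theorem Nrm.val (h : Nrm u e U) {i j : Fin (p + 1)} {z : ℂ} (hz : z ∈ Ext 2) (hj : U j z ≠ 0) :
    Reg (u i / u j) z ∧ Fn (u i / u j) z = U i z / U j z := by
  have hj' : Fn (e * u j) z ≠ 0 := by rw [← h.eq]; exact hj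
  have h1 : u i / u j = (e * u i) * (e * u j)⁻¹ := by
    rw [← div_eq_mul_inv, mul_div_mul_left _ _ h.ne]
  have hzO : z ∈ Om := sub_Om hz
  have r1 := h.reg i z hz
  have r2 := (h.reg j z hz).inv hj' hzO
  rw [h1]
  refine ⟨r1.mul r2 hzO, ?_⟩
  have e1 : Fn ((e * u i) * (e * u j)⁻¹) z = Fn (e * u i) z * Fn (e * u j)⁻¹ z :=
    (Fn_mul hzO r1 r2).self_of_nhds
  have e2 : Fn (e * u j)⁻¹ z = (Fn (e * u j) z)⁻¹ := (Fn_inv hzO (h.reg j z hz) hj').self_of_nhds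
  rw [e1, e2, h.eq i, h.eq j, div_eq_mul_inv]

theorem Nrm.good (h : Nrm u e U) {i0 : Fin (p + 1)} (h0 : u i0 = 1) (i1 i : Fin (p + 1)) :
    Good U i0 i1 1 (u i) := by
  refine ⟨1, zero_le_one, fun z ε B hε hε1 hB hcO => ?_⟩
  have hc := hcO.1
  have hzz : z ∈ closedBall z ε := mem_closedBall_self hε.le
  obtain ⟨r, v⟩ := h.val (i := i) (hcO.2 hzz) (hc.1 i0 z hzz)
  rw [h0, div_one] at r v
  refine ⟨r, ?_⟩
  rw [v, norm_div, one_mul, pow_one]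
  have h1 : 1 ≤ sup U z / ‖U i1 z‖ := one_le_ratio (hc.1 i1 z hzz)
  have h2 : 0 < ‖U i0 z‖ := norm_pos_iff.2 (hc.1 i0 z hzz)
  have h3 : 1 ≤ B / ε := by rw [one_le_div hε]; linarith
  have h4 : ‖U i z‖ / ‖U i0 z‖ ≤ sup U z / ‖U i0 z‖ := by
    gcongr
    exact le_sup U z i
  have h5 : 0 ≤ sup U z / ‖U i0 z‖ := zero_le_one.trans (one_le_ratio (hc.1 i0 z hzz))
  unfold Tq
  calc ‖U i z‖ / ‖U i0 z‖ ≤ sup U z / ‖U i0 z‖ := h4
    _ = 1 * ((sup U z / ‖U i0 z‖) * 1) := by ring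
    _ ≤ (B / ε) * ((sup U z / ‖U i0 z‖) * (sup U z / ‖U i1 z‖)) := by gcongr

theorem Nrm.good_inv (h : Nrm u e U) {i0 : Fin (p + 1)} (h0 : u i0 = 1) (i1 : Fin (p + 1)) :
    Good U i0 i1 1 (u i1)⁻¹ := by
  refine ⟨1, zero_le_one, fun z ε B hε hε1 hB hcO => ?_⟩
  have hc := hcO.1
  have hzz : z ∈ closedBall z ε := mem_closedBall_self hε.le
  obtain ⟨r, v⟩ := h.val (i := i0) (hcO.2 hzz) (hc.1 i1 z hzz)
  rw [h0, one_div] at r v
  refine ⟨r, ?_⟩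
  rw [v, norm_div, one_mul, pow_one]
  have h1 : 1 ≤ sup U z / ‖U i0 z‖ := one_le_ratio (hc.1 i0 z hzz)
  have h2 : 0 < ‖U i1 z‖ := norm_pos_iff.2 (hc.1 i1 z hzz)
  have h3 : 1 ≤ B / ε := by rw [one_le_div hε]; linarith
  have h4 : ‖U i0 z‖ / ‖U i1 z‖ ≤ sup U z / ‖U i1 z‖ := by
    gcongr
    exact le_sup U z i0
  have h5 : 0 ≤ sup U z / ‖U i1 z‖ := zero_le_one.trans (one_le_ratio (hc.1 i1 z hzz))
  unfold Tq
  calc ‖U i0 z‖ / ‖U i1 z‖ ≤ sup U z / ‖U i1 z‖ := h4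
    _ = 1 * (1 * (sup U z / ‖U i1 z‖)) := by ring
    _ ≤ (B / ε) * ((sup U z / ‖U i0 z‖) * (sup U z / ‖U i1 z‖)) := by gcongr

end Pool.Agent.Y221.AP
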