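import Pool.Agent.Y221.AP.Ct

/-!
The field of the functions which are meromorphic at infinity is algebraically closed in the field
of all meromorphic functions.
-/

set_option autoImplicit false
set_option maxHeartbeats 400000

namespace Pool.Agent.Y221.AP

open Filter Metric Set Topology Pool.Agent.W603.BP
open Pool.Agent.Y221.AB (order_ge)

theorem of_inv {p : ℂ → Prop} (h : ∀ᶠ w in 𝓝[≠] (0 : ℂ), p w⁻¹) :
    ∃ z ∈ Om, ∀ᶠ v in 𝓝 z, p v := by
  have h1 := h.and (ev_inv 1)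
  rw [eventually_nhdsWithin_iff, Metric.eventually_nhds_iff_ball] at h1
  obtain ⟨r, hr, hrb⟩ := h1
  obtain ⟨w0, hw0⟩ : ∃ w0 : ℂ, w0 = ((r / 2 : ℝ) : ℂ) := ⟨_, rfl⟩
  have h2 : w0 ∈ ball (0 : ℂ) r := by
    rw [hw0, mem_ball_zero_iff, Complex.norm_real, Real.norm_eq_abs, abs_of_pos (by linarith)]
    linarith
  have h3 : w0 ≠ 0 := by
    rw [hw0]
    exact_mod_cast (by linarith : r / 2 ≠ 0)
  refine ⟨w0⁻¹, (hrb w0 h2 h3).2, ?_⟩
  have h8 : ContinuousAt (fun z : ℂ => z⁻¹) (w0⁻¹) := continuousAt_inv₀ (inv_ne_zero h3)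
  have h9 : ∀ᶠ v in 𝓝 ((w0⁻¹)⁻¹), v ∈ ball (0 : ℂ) r ∧ v ≠ 0 := by
    rw [inv_inv]
    exact (isOpen_ball.eventually_mem h2).and (eventually_ne_nhds h3)
  filter_upwards [h8.eventually h9] with z hz
  have := (hrb z⁻¹ hz.1 hz.2).1
  rwa [inv_inv] at this

theorem MInf.reg {x : MK} (h : MInf x) : ∀ᶠ w in 𝓝[≠] (0 : ℂ), Reg x w⁻¹ := by
  filter_upwards [MeromorphicAt.eventually_analyticAt h, self_mem_nhdsWithin] with w hw hw0
  have hw0' : w ≠ 0 := hw0
  have h1 : AnalyticAt ℂ (fun z : ℂ => z⁻¹) w⁻¹ := analyticAt_inv (inv_ne_zero hw0')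
  have h2 : AnalyticAt ℂ (fun w => Fn x w⁻¹) ((fun z : ℂ => z⁻¹) w⁻¹) := by
    simp only [inv_inv]
    exact hw
  have h3 := h2.comp h1
  have h4 : ((fun w => Fn x w⁻¹) ∘ fun z : ℂ => z⁻¹) = Fn x := by
    funext z
    simp
  rw [h4] at h3
  exact h3

theorem MInf.ne {x : MK} (h : MInf x) (hx : x ≠ 0) : ∀ᶠ w in 𝓝[≠] (0 : ℂ), Fn x w⁻¹ ≠ 0 := by
  rcases MeromorphicAt.eventually_eq_zero_or_eventually_ne_zero h with h1 | h1
  · exfalso
    obtain ⟨z, hz, h2⟩ := of_inv (p := fun v => Fn x v = 0) h1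
    apply hx
    rw [← cl_Fn x, cl_eq_zero]
    exact mero_id (Fn_mero x) hz (freq_of_ev h2)
  · exact h1

theorem MInf.add {x y : MK} (hx : MInf x) (hy : MInf y) : MInf (x + y) := by
  refine (MeromorphicAt.fun_add hx hy).congr ?_
  filter_upwards [hx.reg, hy.reg, ev_inv 1] with w h1 h2 h3
  exact (Fn_add h3 h1 h2).self_of_nhds.symm

theorem MInf.mul {x y : MK} (hx : MInf x) (hy : MInf y) : MInf (x * y) := by
  refine (MeromorphicAt.fun_mul hx hy).congr ?_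
  filter_upwards [hx.reg, hy.reg, ev_inv 1] with w h1 h2 h3
  exact (Fn_mul h3 h1 h2).self_of_nhds.symm

theorem MInf.inv {x : MK} (hx : MInf x) : MInf x⁻¹ := by
  by_cases h0 : x = 0
  · rw [h0, inv_zero, ← h0]
    exact hx
  refine (MeromorphicAt.fun_inv hx).congr ?_
  filter_upwards [hx.reg, hx.ne h0, ev_inv 1] with w h1 h2 h3
  exact (Fn_inv h3 h1 h2).self_of_nhds.symm

theorem minf_const (c : ℂ) : MInf (algebraMap ℂ MK c) := by
  refine (MeromorphicAt.const c 0).congr ?_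
  filter_upwards [ev_inv 1] with w h3
  exact (Fn_const c h3).self_of_nhds.symm

/-- the field of the functions which are meromorphic at infinity -/
def MI : IntermediateField ℂ MK where
  carrier := {x | MInf x}
  mul_mem' := fun hx hy => MInf.mul hx hy
  add_mem' := fun hx hy => MInf.add hx hy
  algebraMap_mem' := minf_const
  inv_mem' := fun _ hx => MInf.inv hx

theorem mem_MI {x : MK} : x ∈ MI ↔ MInf x := Iff.rfl

/-- bounds for the roots of monic polynomials -/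
theorem root_bd {d : ℕ} {a : ℕ → ℂ} {y : ℂ} (h : ∑ k ∈ Finset.range d, a k * y ^ k + y ^ d = 0) :
    ‖y‖ ≤ 1 + ∑ k ∈ Finset.range d, ‖a k‖ := by
  have hs : 0 ≤ ∑ k ∈ Finset.range d, ‖a k‖ := Finset.sum_nonneg fun _ _ => norm_nonneg _
  by_cases hy : ‖y‖ ≤ 1
  · linarith
  push Not at hy
  rcases d with _ | d
  · simp at h
  have h1 : y ^ (d + 1) = -∑ k ∈ Finset.range (d + 1), a k * y ^ k := by linear_combination h
  have h2 : ‖y‖ ^ (d + 1) ≤ (∑ k ∈ Finset.range (d + 1), ‖a k‖) * ‖y‖ ^ d := by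
    rw [← norm_pow, h1, norm_neg, Finset.sum_mul]
    refine (norm_sum_le _ _).trans (Finset.sum_le_sum fun k hk => ?_)
    rw [norm_mul, norm_pow]
    have h3 : k ≤ d := Nat.lt_succ_iff.1 (Finset.mem_range.1 hk)
    exact mul_le_mul_of_nonneg_left (pow_le_pow_right₀ hy.le h3) (norm_nonneg _)
  have h3 : 0 < ‖y‖ ^ d := by positivity
  rw [pow_succ] at h2
  have h4 : ‖y‖ ≤ ∑ k ∈ Finset.range (d + 1), ‖a k‖ := by
    have h5 : ‖y‖ * ‖y‖ ^ d ≤ (∑ k ∈ Finset.range (d + 1), ‖a k‖) * ‖y‖ ^ d := by linarith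
    exact le_of_mul_le_mul_right h5 h3
  linarith

/-- bounds for the roots of monic polynomials with meromorphic coefficients -/
theorem root_bd_cod {d : ℕ} {a : ℕ → MK} {x : MK}
    (h : ∑ k ∈ Finset.range d, a k * x ^ k + x ^ d = 0) :
    ∀ᶠ z in cod, ‖Fn x z‖ ≤ 1 + ∑ k ∈ Finset.range d, ‖Fn (a k) z‖ := by
  have h1 : ∀ᶠ z in cod, ∀ k ∈ Finset.range d, Reg (a k) z :=
    (Finset.eventually_all (Finset.range d)).2 fun k _ => mero_an (Fn_mero (a k))
  filter_upwards [h1, mero_an (Fn_mero x), cod_Om] with z h2 h3 hz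
  obtain ⟨zz, hzz⟩ : ∃ zz : Om, (zz : ℂ) = z := ⟨⟨z, hz⟩, rfl⟩
  have hx : x ∈ Oz zz := by
    rw [mem_Oz, hzz]
    exact h3
  have ha : ∀ k, ∃ b : Oz zz, k ∈ Finset.range d → (b : MK) = a k := by
    intro k
    by_cases hk : k ∈ Finset.range d
    · refine ⟨⟨a k, ?_⟩, fun _ => rfl⟩
      rw [mem_Oz, hzz]
      exact h2 k hk
    · exact ⟨0, fun h => absurd h hk⟩
  choose b hb using ha
  have h4 : ∑ k ∈ Finset.range d, b k * (⟨x, hx⟩ : Oz zz) ^ k + (⟨x, hx⟩ : Oz zz) ^ d = 0 := by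
    apply Subtype.ext
    push_cast
    rw [← h]
    congr 1
    exact Finset.sum_congr rfl fun k hk => by rw [hb k hk]
  have h5 := congrArg (evO zz) h4
  rw [map_add, map_sum, map_pow, map_zero] at h5
  simp only [map_mul, map_pow] at h5
  have h6 := root_bd h5
  rw [evO_apply] at h6
  simp only [hzz] at h6
  refine h6.trans (le_of_eq ?_)
  congr 1
  refine Finset.sum_congr rfl fun k hk => ?_
  rw [evO_apply, hb k hk, hzz]

/-- a pole bound -/
theorem reg_of_bd {x : MK} {z : ℂ} (hz : z ∈ Om) {C : ℝ} (h : ∀ᶠ v in 𝓝[≠] z, ‖Fn x v‖ ≤ C) :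
    Reg x z := by
  rw [reg_iff hz]
  have h1 := order_ge (Fn_mero x z hz) (C := C) (M := 0) (by
    filter_upwards [h] with v hv
    rw [pow_zero, mul_one]
    exact hv)
  exact h1

/-- meromorphic functions are bounded by powers -/
theorem mero_bd {f : ℂ → ℂ} (hf : MeromorphicAt f 0) :
    ∃ (n : ℕ) (C : ℝ), 0 ≤ C ∧ ∀ᶠ w in 𝓝[≠] (0 : ℂ), ‖w ^ n * f w‖ ≤ C := by
  obtain ⟨n, hn⟩ := hf
  refine ⟨n, ‖(0 - 0 : ℂ) ^ n • f 0‖ + 1, by positivity, ?_⟩
  have h1 := hn.continuousAt.norm.eventually_lt_const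
    (lt_add_one ‖((0 : ℂ) - 0) ^ n • f 0‖)
  filter_upwards [nhdsWithin_le_nhds h1] with w hw
  rw [sub_zero, smul_eq_mul] at hw
  exact hw.le

/-- bounded functions are meromorphic -/
theorem mero_of_bd {g : ℂ → ℂ} {n : ℕ} {C : ℝ}
    (h : ∀ᶠ w in 𝓝[≠] (0 : ℂ), AnalyticAt ℂ g w ∧ ‖w ^ n * g w‖ ≤ C) : MeromorphicAt g 0 := by
  rw [eventually_nhdsWithin_iff, Metric.eventually_nhds_iff_ball] at h
  obtain ⟨r, hr, hrb⟩ := h
  have h1 : DifferentiableOn ℂ (fun w => w ^ n * g w) (ball 0 r \ {0}) := by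
    intro w hw
    have := (hrb w hw.1 hw.2).1
    exact ((differentiableAt_id.fun_pow n).fun_mul this.differentiableAt).differentiableWithinAt
  have h2 := Complex.differentiableOn_update_limUnder_of_bddAbove (ball_mem_nhds 0 hr) h1 (by
    refine ⟨C, ?_⟩
    rintro _ ⟨w, hw, rfl⟩
    exact (hrb w hw.1 hw.2).2)
  have h3 : MeromorphicAt (fun w => w ^ n * g w) 0 := by
    have h4 := (h2.analyticAt (ball_mem_nhds 0 hr)).meromorphicAt
    refine h4.congr ?_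
    filter_upwards [self_mem_nhdsWithin] with w hw
    rw [Function.update_of_ne hw]
  have h5 : MeromorphicAt (fun w : ℂ => w ^ n) 0 := (by fun_prop : AnalyticAt ℂ (fun w : ℂ => w ^ n) 0).meromorphicAt
  refine (h3.fun_div h5).congr ?_
  filter_upwards [self_mem_nhdsWithin] with w hw
  have hw' : w ^ n ≠ 0 := pow_ne_zero _ hw
  field_simp

/-- **The functions which are meromorphic at infinity are algebraically closed.** -/
theorem minf_of_rel {d : ℕ} {a : ℕ → MK} {x : MK} (ha : ∀ k ∈ Finset.range d, MInf (a k))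
    (h : ∑ k ∈ Finset.range d, a k * x ^ k + x ^ d = 0) : MInf x := by
  have hbd := root_bd_cod h
  have h1 : ∀ k, ∃ (n : ℕ) (C : ℝ), 0 ≤ C ∧ (k ∈ Finset.range d →
      ∀ᶠ w in 𝓝[≠] (0 : ℂ), ‖w ^ n * Fn (a k) w⁻¹‖ ≤ C) := by
    intro k
    by_cases hk : k ∈ Finset.range d
    · obtain ⟨n, C, hC, h2⟩ := mero_bd (ha k hk)
      exact ⟨n, C, hC, fun _ => h2⟩
    · exact ⟨0, 0, le_rfl, fun h => absurd h hk⟩
  choose n C hC hn using h1
  have hN : ∀ k ∈ Finset.range d, n k ≤ ∑ k ∈ Finset.range d, n k := fun k hk =>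
    Finset.single_le_sum (fun _ _ => Nat.zero_le _) hk
  obtain ⟨N, hNd⟩ : ∃ N, N = ∑ k ∈ Finset.range d, n k := ⟨_, rfl⟩
  rw [← hNd] at hN
  refine mero_of_bd (n := N) (C := 1 + ∑ k ∈ Finset.range d, C k) ?_
  have h2 : ∀ᶠ w in 𝓝[≠] (0 : ℂ), ∀ k ∈ Finset.range d, ‖w ^ n k * Fn (a k) w⁻¹‖ ≤ C k :=
    (Finset.eventually_all (Finset.range d)).2 fun k hk => hn k hk
  have h3 : ∀ᶠ w in 𝓝[≠] (0 : ℂ), ∀ k ∈ Finset.range d, Reg (a k) w⁻¹ :=
    (Finset.eventually_all (Finset.range d)).2 fun k hk => (ha k hk).reg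
  have h4 : ∀ᶠ w in 𝓝[≠] (0 : ℂ), w ∈ ball (0 : ℂ) 1 :=
    nhdsWithin_le_nhds (ball_mem_nhds 0 one_pos)
  filter_upwards [h2, h3, h4, ev_inv 1, self_mem_nhdsWithin] with w g2 g3 g4 g5 g6
  have hw0 : w ≠ 0 := g6
  have hwn : 0 < ‖w‖ := norm_pos_iff.2 hw0
  rw [mem_ball_zero_iff] at g4
  -- the bound near the point
  have hcont : ContinuousAt (fun z => 1 + ∑ k ∈ Finset.range d, ‖Fn (a k) z‖) w⁻¹ := by
    refine continuousAt_const.add ?_
    exact tendsto_finsetSum _ fun k hk => (g3 k hk).continuousAt.norm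
  have hreg : Reg x w⁻¹ := by
    refine reg_of_bd g5 (C := (1 + ∑ k ∈ Finset.range d, ‖Fn (a k) w⁻¹‖) + 1) ?_
    filter_upwards [cod_ev hbd g5,
      nhdsWithin_le_nhds (hcont.eventually_lt_const (lt_add_one _))] with z e1 e2
    exact e1.trans e2.le
  have hle : ‖Fn x w⁻¹‖ ≤ 1 + ∑ k ∈ Finset.range d, ‖Fn (a k) w⁻¹‖ := by
    have t1 : Tendsto (fun z => ‖Fn x z‖) (𝓝[≠] w⁻¹) (𝓝 ‖Fn x w⁻¹‖) :=
      hreg.continuousAt.norm.tendsto.mono_left nhdsWithin_le_nhds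
    have t2 : Tendsto (fun z => 1 + ∑ k ∈ Finset.range d, ‖Fn (a k) z‖) (𝓝[≠] w⁻¹)
        (𝓝 (1 + ∑ k ∈ Finset.range d, ‖Fn (a k) w⁻¹‖)) :=
      hcont.tendsto.mono_left nhdsWithin_le_nhds
    exact le_of_tendsto_of_tendsto t1 t2 (cod_ev hbd g5)
  refine ⟨?_, ?_⟩
  · have e1 : AnalyticAt ℂ (fun z : ℂ => z⁻¹) w := analyticAt_inv hw0
    exact hreg.comp e1
  · rw [norm_mul, norm_pow]
    have hpow : ∀ k ≤ N, ‖w‖ ^ N ≤ ‖w‖ ^ k := fun k hk =>
      pow_le_pow_of_le_one (norm_nonneg _) g4.le hk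
    calc ‖w‖ ^ N * ‖Fn x w⁻¹‖ ≤ ‖w‖ ^ N * (1 + ∑ k ∈ Finset.range d, ‖Fn (a k) w⁻¹‖) := by
          gcongr
      _ = ‖w‖ ^ N + ∑ k ∈ Finset.range d, ‖w‖ ^ N * ‖Fn (a k) w⁻¹‖ := by
          rw [mul_add, mul_one, Finset.mul_sum]
      _ ≤ 1 + ∑ k ∈ Finset.range d, C k := by
          refine add_le_add (pow_le_one₀ (norm_nonneg _) g4.le) (Finset.sum_le_sum fun k hk => ?_)
          have e2 := g2 k hk
          rw [norm_mul, norm_pow] at e2
          refine le_trans ?_ e2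
          exact mul_le_mul_of_nonneg_right (hpow _ (hN k hk)) (norm_nonneg _)

/-- **The functions which are meromorphic at infinity are algebraically closed.** -/
theorem minf_of_alg {x : MK} (h : IsAlgebraic MI x) : MInf x := by
  have hint : IsIntegral MI x := h.isIntegral
  obtain ⟨f, hf⟩ : ∃ f, f = minpoly MI x := ⟨_, rfl⟩
  have hmon : f.Monic := by rw [hf]; exact minpoly.monic hint
  have h1 : Polynomial.aeval x f = 0 := by rw [hf]; exact minpoly.aeval MI x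
  rw [Polynomial.aeval_eq_sum_range, Finset.sum_range_succ, hmon.coeff_natDegree, one_smul] at h1
  refine minf_of_rel (d := f.natDegree) (a := fun k => ((f.coeff k : MI) : MK))
    (fun k _ => (f.coeff k).2) ?_
  exact h1

end Pool.Agent.Y221.AP
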