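import Pool.Agent.Y221.AP.Spec

/-!
The values of the conjugates at a point, and bounds in terms of them.
-/

set_option autoImplicit false
set_option maxHeartbeats 400000
set_option linter.unusedSectionVars false

namespace Pool.Agent.Y221.AP

open Filter Topology Set Pool.Agent.W603.BP Polynomial
open Pool.Agent.Y221.AB (exists_lam eval_of_aeval det_aeval coeff_prod_le deriv_le interp_le)

variable {K₁ : Type} [Field K₁] [Algebra MK K₁]

/-- the polynomial which represents an element in terms of the generator -/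
noncomputable def gj (pb : PowerBasis MK K₁) (x : K₁) : MK[X] :=
  ∑ k : Fin pb.dim, C (pb.basis.repr x k) * X ^ (k : ℕ)

theorem gj_coeff (pb : PowerBasis MK K₁) (x : K₁) (k : ℕ) :
    (gj pb x).coeff k = if h : k < pb.dim then pb.basis.repr x ⟨k, h⟩ else 0 := by
  unfold gj
  rw [finsetSum_coeff]
  simp only [coeff_C_mul, coeff_X_pow, mul_ite, mul_one, mul_zero]
  split_ifs with h
  · rw [Finset.sum_eq_single ⟨k, h⟩]
    · simp
    · intro b _ hb
      rw [if_neg]
      intro h1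
      exact hb (Fin.ext h1.symm)
    · intro h1
      exact absurd (Finset.mem_univ _) h1
  · refine Finset.sum_eq_zero fun b _ => ?_
    rw [if_neg]
    intro h1
    exact h (h1 ▸ b.2)

theorem aeval_gj (pb : PowerBasis MK K₁) (x : K₁) : aeval pb.gen (gj pb x) = x := by
  unfold gj
  rw [map_sum]
  conv_rhs => rw [← pb.basis.sum_repr x]
  refine Finset.sum_congr rfl fun k _ => ?_
  rw [map_mul, aeval_C, map_pow, aeval_X, pb.basis_eq_pow, Algebra.smul_def]

theorem mem_zero_one {z : Om} : (0 : MK) ∈ Oz z := zero_mem _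

theorem Fn_zero (z : Om) : Fn 0 z = 0 := map_zero (evO z)

variable [Algebra ℂ K₁] [IsScalarTower ℂ MK K₁] [FiniteDimensional MK K₁] (pb : PowerBasis MK K₁)
  (z : Om)

/-- the discriminant -/
noncomputable def dsc : MK := Algebra.norm MK (aeval pb.gen (derivative (minpoly MK pb.gen)))

theorem spec {m : ℕ} {β : Fin (m + 1) → K₁} {s : Fin (m + 1) → ℂ}
    (hs : pb.gen = ∑ j, algebraMap ℂ K₁ (s j) * β j) (h0 : β 0 = 1)
    (hρ : pb.gen ∈ Sz pb z) (hβ : ∀ j k, pb.basis.repr (β j) k ∈ Oz z)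
    (hδ : Fn (dsc pb) z ≠ 0) :
    ∃ b : Fin pb.dim → Fin (m + 1) → ℂ, (∀ i, b i 0 = 1) ∧
      (∀ (K : ℕ) (t : Fin (m + 1) → ℂ),
        Algebra.norm MK (∑ j, algebraMap ℂ K₁ (t j) * β j ^ K) ∈ Oz z ∧
        Fn (Algebra.norm MK (∑ j, algebraMap ℂ K₁ (t j) * β j ^ K)) z =
          ∏ i, ∑ j, t j * b i j ^ K) ∧
      (∀ j, Fn (Algebra.norm MK (β j)) z = ∏ i, b i j) ∧
      (∀ k, ‖Fn ((minpoly MK pb.gen).coeff k) z‖ ≤
        (1 + (∑ j, ‖s j‖) * ∏ i, ‖b i‖) ^ pb.dim) ∧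
      ‖Fn (dsc pb) z‖ ≤ ((1 + 2 * ((∑ j, ‖s j‖) * ∏ i, ‖b i‖)) ^ pb.dim) ^ pb.dim ∧
      (∀ j k, ‖Fn (dsc pb * pb.basis.repr (β j) k) z‖ ≤
        pb.dim * ((∏ i, ‖b i‖) * ((1 + 2 * ((∑ j, ‖s j‖) * ∏ i, ‖b i‖)) ^ pb.dim) ^ pb.dim *
          (1 + (∑ j, ‖s j‖) * ∏ i, ‖b i‖) ^ pb.dim)) := by
  classical
  set Cz := Ph pb z ⟨pb.gen, hρ⟩ with hCz
  obtain ⟨lam, hlam⟩ := exists_lam pb.dim Cz.charpoly (Matrix.charpoly_monic _) (by
    rw [Matrix.charpoly_natDegree_eq_dim, Fintype.card_fin])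
  -- the polynomials of the elements
  have hgc : ∀ j k, (gj pb (β j)).coeff k ∈ Oz z := by
    intro j k
    rw [gj_coeff]
    split_ifs
    · exact hβ j _
    · exact zero_mem _
  let q : Fin (m + 1) → ℂ[X] := fun j =>
    ∑ k ∈ Finset.range pb.dim, C (Fn ((gj pb (β j)).coeff k) z) * X ^ k
  have hq : ∀ j k, (q j).coeff k = Fn ((gj pb (β j)).coeff k) z := by
    intro j k
    simp only [q, finsetSum_coeff, coeff_C_mul, coeff_X_pow, mul_ite, mul_one, mul_zero,
      Finset.sum_ite_eq, Finset.mem_range]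
    split_ifs with h
    · rfl
    · rw [gj_coeff, dif_neg h, Fn_zero]
  have hqd : ∀ j, (q j).degree < pb.dim := by
    intro j
    rw [degree_lt_iff_coeff_zero]
    intro k hk
    rw [hq, gj_coeff, dif_neg (by omega), Fn_zero]
  have hPβ : ∀ j, ∃ h : β j ∈ Sz pb z, Ph pb z ⟨β j, h⟩ = aeval Cz (q j) := by
    intro j
    obtain ⟨h, h1⟩ := Ph_aeval pb z hρ (gj pb (β j)) (q j) (hgc j) (hq j)
    simp only [aeval_gj] at h h1
    exact ⟨h, h1⟩
  choose hmem hPh using hPβ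
  refine ⟨fun i j => (q j).eval (lam i), ?_, ?_, ?_, ?_⟩
  · intro i
    have h1 : aeval Cz (q 0 - C 1) = 0 := by
      rw [map_sub, ← hPh 0, aeval_C, map_one]
      have h2 : (⟨β 0, hmem 0⟩ : Sz pb z) = 1 := Subtype.ext h0
      rw [h2, Ph_one, sub_self]
    have h2 := eval_of_aeval Cz lam hlam _ h1 i
    rw [eval_sub, eval_C] at h2
    exact sub_eq_zero.1 h2
  · intro K t
    let y : Sz pb z := ∑ j, algebraMap ℂ (Sz pb z) (t j) * (⟨β j, hmem j⟩ : Sz pb z) ^ K
    have hy : (y : K₁) = ∑ j, algebraMap ℂ K₁ (t j) * β j ^ K := by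
      simp only [y]
      simp
    obtain ⟨h1, h2⟩ := norm_mem pb z y
    rw [hy] at h1 h2
    refine ⟨h1, ?_⟩
    have h3 : Ph pb z y = aeval Cz (∑ j, C (t j) * q j ^ K) := by
      rw [← PhH_apply]
      simp only [y]
      rw [map_sum, map_sum]
      refine Finset.sum_congr rfl fun j _ => ?_
      rw [map_mul, map_pow, map_mul, map_pow, AlgHom.commutes, aeval_C, PhH_apply, hPh]
    rw [h2, h3, det_aeval Cz lam hlam]
    refine Finset.prod_congr rfl fun i _ => ?_
    simp [eval_finsetSum]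
  · intro j
    obtain ⟨-, h2⟩ := norm_mem pb z ⟨β j, hmem j⟩
    rw [h2, hPh, det_aeval Cz lam hlam]
  -- the bounds
  obtain ⟨b, hb⟩ : ∃ b : Fin pb.dim → Fin (m + 1) → ℂ, ∀ i j, (q j).eval (lam i) = b i j :=
    ⟨_, fun _ _ => rfl⟩
  have hbf : (fun i => fun j => (q j).eval (lam i)) = b := by
    funext i j
    exact hb i j
  have hb0 : ∀ i, b i 0 = 1 := by
    intro i
    have h1 : aeval Cz (q 0 - C 1) = 0 := by
      rw [map_sub, ← hPh 0, aeval_C, map_one]
      have h2 : (⟨β 0, hmem 0⟩ : Sz pb z) = 1 := Subtype.ext h0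
      rw [h2, Ph_one, sub_self]
    have h2 := eval_of_aeval Cz lam hlam _ h1 i
    rw [eval_sub, eval_C, hb] at h2
    exact sub_eq_zero.1 h2
  have hbn : ∀ i, 1 ≤ ‖b i‖ := by
    intro i
    have h1 := norm_le_pi_norm (b i) 0
    rw [hb0, norm_one] at h1
    exact h1
  have hle : ∀ i, ‖b i‖ ≤ ∏ i, ‖b i‖ := by
    intro i
    rw [← Finset.mul_prod_erase Finset.univ (fun i => ‖b i‖) (Finset.mem_univ i)]
    have h1 : 1 ≤ ∏ l ∈ Finset.univ.erase i, ‖b l‖ := by
      calc (1 : ℝ) = ∏ l ∈ Finset.univ.erase i, (1 : ℝ) := by rw [Finset.prod_const_one]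
        _ ≤ _ := Finset.prod_le_prod (fun _ _ => zero_le_one) fun l _ => hbn l
    have h2 : 0 ≤ ‖b i‖ := norm_nonneg _
    nlinarith
  set S : ℝ := ∏ i, ‖b i‖ with hS
  have hS0 : 0 ≤ S := Finset.prod_nonneg fun _ _ => norm_nonneg _
  have hbS : ∀ i j, ‖b i j‖ ≤ S := fun i j => (norm_le_pi_norm (b i) j).trans (hle i)
  set c : ℝ := ∑ j, ‖s j‖ with hc
  have hc0 : 0 ≤ c := Finset.sum_nonneg fun _ _ => norm_nonneg _
  have hlamS : ∀ i, ‖lam i‖ ≤ c * S := by
    intro i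
    have h2 : (⟨pb.gen, hρ⟩ : Sz pb z) =
        ∑ j, algebraMap ℂ (Sz pb z) (s j) * (⟨β j, hmem j⟩ : Sz pb z) := by
      apply Subtype.ext
      simp only [AddSubmonoidClass.coe_finsetSum, MulMemClass.coe_mul]
      exact hs
    have h3 : Cz = ∑ j, algebraMap ℂ (Matrix (Fin pb.dim) (Fin pb.dim) ℂ) (s j) *
        aeval Cz (q j) := by
      refine (congrArg (PhH pb z) h2).trans ?_
      rw [map_sum]
      refine Finset.sum_congr rfl fun j _ => ?_
      rw [map_mul, AlgHom.commutes, PhH_apply, hPh]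
    have h1 : aeval Cz (X - ∑ j, C (s j) * q j) = 0 := by
      rw [map_sub, aeval_X, map_sum, sub_eq_zero]
      refine h3.trans (Finset.sum_congr rfl fun j _ => ?_)
      rw [map_mul, aeval_C]
    have h2 := eval_of_aeval Cz lam hlam _ h1 i
    rw [eval_sub, eval_X, eval_finsetSum, sub_eq_zero] at h2
    rw [h2, hc, Finset.sum_mul]
    refine (norm_sum_le _ _).trans (Finset.sum_le_sum fun j _ => ?_)
    rw [eval_mul, eval_C, norm_mul, hb]
    exact mul_le_mul_of_nonneg_left (hbS i j) (norm_nonneg _)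
  have hcS : 0 ≤ c * S := mul_nonneg hc0 hS0
  have hco := charpoly_coeff pb z hρ
  -- the discriminant
  have hdd : Fn (dsc pb) z = ∏ i, (derivative (∏ l, (X - C (lam l)))).eval (lam i) ∧
      dsc pb ∈ Oz z := by
    obtain ⟨h, h1⟩ := Ph_aeval pb z hρ (derivative (minpoly MK pb.gen)) (derivative Cz.charpoly)
      (fun k => by
        rw [coeff_derivative]
        have := (Oz z).mul_mem (hco (k + 1)).1 ((Oz z).natCast_mem (k + 1))
        push_cast at this
        exact this)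
      (fun k => by
        rw [coeff_derivative, coeff_derivative, ← (hco (k + 1)).2]
        have e := map_mul (evO z) ⟨_, (hco (k + 1)).1⟩ ((k + 1 : ℕ) : Oz z)
        rw [map_natCast] at e
        push_cast at e
        exact e.symm)
    obtain ⟨h2, h3⟩ := norm_mem pb z ⟨_, h⟩
    refine ⟨?_, h2⟩
    unfold dsc
    rw [h3, h1, det_aeval Cz lam hlam, hlam]
  simp only [hb]
  refine ⟨?_, ?_, ?_⟩
  · intro k
    rw [(hco k).2, ← hCz, hlam]
    refine (coeff_prod_le _ lam hcS hlamS k).trans ?_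
    rw [Finset.card_univ, Fintype.card_fin]
  · rw [hdd.1, norm_prod]
    calc _ ≤ ∏ _i : Fin pb.dim, (1 + 2 * (c * S)) ^ pb.dim :=
          Finset.prod_le_prod (fun _ _ => norm_nonneg _) fun i _ => deriv_le lam hcS hlamS i
      _ = _ := by rw [Finset.prod_const, Finset.card_univ, Fintype.card_fin]
  · intro j k
    have e1 : Fn (dsc pb * pb.basis.repr (β j) k) z =
        Fn (dsc pb) z * Fn (pb.basis.repr (β j) k) z :=
      map_mul (evO z) ⟨_, hdd.2⟩ ⟨_, hβ j k⟩
    have e2 : Fn (pb.basis.repr (β j) k) z = (q j).coeff k := by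
      rw [hq, gj_coeff, dif_pos k.2]
    rw [e1, e2]
    exact interp_le lam hcS hlamS hdd.1 hδ (q j) (hqd j) hS0
      (fun i => by rw [hb]; exact hbS i j) k

end Pool.Agent.Y221.AP
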