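import Pool.Agent.Y221.AP.Good
import Pool.Agent.Y221.AB.Wei

/-!
Normalization of a family of meromorphic functions on the exterior of the unit disc.
-/

set_option autoImplicit false
set_option maxHeartbeats 400000

namespace Pool.Agent.Y221.AP

open Filter Metric Set Topology Pool.Agent.W603.BP
open Pool.Agent.Y221.AB (weier)

variable {p : ℕ}

/-- **normalization** -/
theorem exists_nrm (u : Fin (p + 1) → MK) {i0 : Fin (p + 1)} (h0 : u i0 = 1) :
    ∃ e U, Nrm u e U := by
  classical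
  let μ : ℂ → WithTop ℤ := fun z => Finset.univ.inf' Finset.univ_nonempty fun i => odr (u i) z
  have hμ0 : ∀ z ∈ Om, μ z ≤ 0 := by
    intro z hz
    have := Finset.inf'_le (fun i => odr (u i) z) (Finset.mem_univ i0)
    simpa only [h0, odr_one hz] using this
  have hμle : ∀ z i, μ z ≤ odr (u i) z := fun z i => Finset.inf'_le _ (Finset.mem_univ i)
  have hμat : ∀ z, ∃ i, μ z = odr (u i) z := by
    intro z
    obtain ⟨i, _, hi⟩ := Finset.exists_mem_eq_inf' Finset.univ_nonempty fun i => odr (u i) z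
    exact ⟨i, hi⟩
  have hμn : ∀ z, ∃ n : ℕ, (z ∈ Ext 2 → μ z = ((-(n : ℤ) : ℤ) : WithTop ℤ)) ∧
      (z ∉ Ext 2 → n = 0) := by
    intro z
    by_cases hz : z ∈ Ext 2
    · obtain ⟨k, hk⟩ := WithTop.ne_top_iff_exists.1
        (ne_top_of_le_ne_top (WithTop.coe_ne_top (a := (0 : ℤ))) (hμ0 z (sub_Om hz)))
      have hk0 : k ≤ 0 := by
        have := hμ0 z (sub_Om hz)
        rw [← hk] at this
        exact_mod_cast this
      refine ⟨(-k).toNat, fun _ => ?_, fun h => absurd hz h⟩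
      rw [← hk]
      congr 1
      omega
    · exact ⟨0, fun h => absurd h hz, fun _ => rfl⟩
  choose m hm hm0 using hμn
  have hmz : ∀ z, (∀ i, Reg (u i) z) → m z = 0 := by
    intro z hz
    by_cases hz2 : z ∈ Ext 2
    · have h1 : 0 ≤ μ z := by
        obtain ⟨i, hi⟩ := hμat z
        rw [hi]
        exact (reg_iff (sub_Om hz2)).1 (hz i)
      rw [hm z hz2] at h1
      have h2 : (0 : ℤ) ≤ -(m z : ℤ) := by exact_mod_cast h1
      omega
    · exact hm0 z hz2
  have hfin : ∀ R : ℝ, ({a | m a ≠ 0} ∩ closedBall 0 R).Finite := by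
    intro R
    by_contra hinf
    obtain ⟨x, -, hx⟩ := Set.Infinite.exists_accPt_of_subset_isCompact hinf
      (isCompact_closedBall (0 : ℂ) R) Set.inter_subset_right
    have h2 : ∃ᶠ y in 𝓝[≠] x, y ∈ {a | m a ≠ 0} ∩ closedBall 0 R :=
      accPt_iff_frequently_nhdsNE.mp hx
    have hxO : x ∈ Om := by
      by_contra hxO
      have hx1 : ‖x‖ ≤ 1 := not_lt.1 hxO
      have h3 : ∀ᶠ y in 𝓝[≠] x, ‖y‖ < 2 := by
        have h4 : ∀ᶠ y in 𝓝 x, ‖y‖ < 2 :=
          (continuous_norm.tendsto x).eventually_lt_const (by linarith)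
        exact nhdsWithin_le_nhds h4
      obtain ⟨y, hy, hy2⟩ := (h2.and_eventually h3).exists
      exact hy.1 (hm0 y (fun h => absurd (show (2 : ℝ) < ‖y‖ from h) (by linarith)))
    have h1 : ∀ᶠ w in 𝓝[≠] x, ∀ i, Reg (u i) w :=
      eventually_all.2 fun i => (Fn_mero (u i) x hxO).eventually_analyticAt
    obtain ⟨y, hy, hy2⟩ := (h2.and_eventually h1).exists
    exact hy.1 (hmz y hy2)
  obtain ⟨q, hq, hord⟩ := weier m hfin
  have hqm : MeromorphicOn q Om := fun z _ => (hq.analyticAt z).meromorphicAt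
  have hqo : ∀ z ∈ Om, odr (cl q hqm) z = ((m z : ℤ) : WithTop ℤ) := by
    intro z hz
    rw [odr_cl _ hz, (hq.analyticAt z).meromorphicOrderAt_eq, hord z]
    rfl
  have hadd : ∀ z ∈ Om, ∀ i, odr (cl q hqm * u i) z = ((m z : ℤ) : WithTop ℤ) + odr (u i) z := by
    intro z hz i
    rw [odr_mul _ _ hz, hqo z hz]
  refine ⟨cl q hqm, fun i => Fn (cl q hqm * u i), ?_, fun i => rfl, ?_, ?_⟩
  · intro h
    have h1 := hqo 2 two_mem
    rw [h] at h1
    have h2 : odr 0 2 = ⊤ := by
      unfold odr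
      rw [meromorphicOrderAt_eq_top_iff]
      have := cod_ev (Fn_const_codis 0) two_mem
      rw [map_zero] at this
      exact this
    rw [h2] at h1
    exact WithTop.top_ne_coe h1
  · intro i z hz
    rw [reg_iff (sub_Om hz), hadd z (sub_Om hz)]
    have h1 := hμle z i
    rw [hm z hz] at h1
    calc (0 : WithTop ℤ) = ((m z : ℤ) : WithTop ℤ) + ((-(m z : ℤ) : ℤ) : WithTop ℤ) := by
          rw [← WithTop.coe_add, add_neg_cancel]
          rfl
      _ ≤ _ := by gcongr
  · intro z hz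
    obtain ⟨i, hi⟩ := hμat z
    refine ⟨i, ?_⟩
    rw [← odr_zero_iff (sub_Om hz), hadd z (sub_Om hz), ← hi, hm z hz, ← WithTop.coe_add,
      add_neg_cancel]
    rfl

end Pool.Agent.Y221.AP
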