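import Pool.Agent.Y221.AP.Eng2
import Pool.Agent.Y221.AP.Spec2
import Pool.Agent.Y221.AP.Wei
import Pool.Agent.Y221.AB.Main2
import Pool.Agent.Y221.AB.Main3

/-!
Sums of high powers of algebroid functions: the functions are algebraic.
-/

set_option autoImplicit false
set_option maxHeartbeats 400000
set_option linter.unusedSectionVars false

namespace Pool.Agent.Y221.AP

open Filter Metric Set Topology Pool.Agent.W602.NC Pool.Agent.W602.TL
  Pool.Agent.TH152.HY Pool.Agent.W602.GT Pool.Agent.W603.LV Pool.Agent.W603.BP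
open Pool.Agent.Y221.AB (pn Ix card_Ix an Nbd norm_pow_le)

/-- `x` is meromorphic at infinity -/
def MInf (x : MK) : Prop := MeromorphicAt (fun w => Fn x w⁻¹) 0

theorem ev_inv (R : ℝ) : ∀ᶠ w in 𝓝[≠] (0 : ℂ), w⁻¹ ∈ Ext R := by
  have hinf : Tendsto (fun w : ℂ => w⁻¹) (𝓝[≠] 0) (Bornology.cobounded ℂ) := tendsto_inv₀_nhdsNE_zero
  exact (tendsto_norm_cobounded_atTop.comp hinf).eventually_gt_atTop R

/-- replace zero by one -/
noncomputable def nz (x : MK) : MK := by
  classical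
  exact if x = 0 then 1 else x

theorem nz_ne (x : MK) : nz x ≠ 0 := by
  classical
  unfold nz
  split_ifs with h
  · exact one_ne_zero
  · exact h

theorem nz_of {x : MK} (h : x ≠ 0) : nz x = x := by
  classical
  unfold nz
  rw [if_neg h]

theorem good_of_nz {p : ℕ} {U : Fin (p + 1) → ℂ → ℂ} {i0 i1 : Fin (p + 1)} {A : ℕ} {x : MK}
    (h : Good U i0 i1 A (nz x)) : Good U i0 i1 A x := by
  classical
  by_cases hx : x = 0
  · rw [hx]
    exact (filt_good i0 i1).zero A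
  · rwa [nz_of hx] at h

theorem minf_zero : MInf 0 := by
  unfold MInf
  refine (MeromorphicAt.const 0 0).congr ?_
  filter_upwards [ev_inv 1] with w hw
  exact (Fn_zero ⟨w⁻¹, hw⟩).symm

theorem minf_of_nz {x : MK} (h : MInf (nz x)) : MInf x := by
  classical
  by_cases hx : x = 0
  · rw [hx]
    exact minf_zero
  · rwa [nz_of hx] at h

/-- quotients of members of a family are meromorphic at infinity -/
theorem minf_of_quot {p : ℕ} {U : Fin (p + 1) → ℂ → ℂ} {u : Fin (p + 1) → MK} {e : MK}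
    (h : Nrm u e U) (hu : ∀ i, u i ≠ 0) {i0 : Fin (p + 1)} (h0 : u i0 = 1)
    (hR : ∀ j, ∃ R : ℂ → ℂ, MeromorphicAt (fun w => R w⁻¹) 0 ∧ ∃ R0 : ℝ, ∀ z, R0 < ‖z‖ →
      U j z = R z * U 0 z) (i : Fin (p + 1)) : MInf (u i) := by
  choose R hRm R0 hRe using hR
  obtain ⟨M, hM2, hM⟩ : ∃ M : ℝ, 2 ≤ M ∧ ∀ j, R0 j ≤ M := by
    refine ⟨2 + ∑ j, |R0 j|, ?_, fun j => ?_⟩
    · have := Finset.sum_nonneg fun j (_ : j ∈ Finset.univ) => abs_nonneg (R0 j)
      linarith
    · have := (le_abs_self _).trans (Finset.single_le_sum (f := fun j => |R0 j|)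
        (fun j _ => abs_nonneg _) (Finset.mem_univ j))
      linarith
  have hU0 : ∀ z, M < ‖z‖ → U 0 z ≠ 0 := by
    intro z hz h1
    obtain ⟨j, hj⟩ := h.nz z (hM2.trans_lt hz)
    apply hj
    rw [hRe j z ((hM j).trans_lt hz), h1, mul_zero]
  -- `R i0` does not vanish near infinity
  have hinf : Tendsto (fun w : ℂ => w⁻¹) (𝓝[≠] 0) (Bornology.cobounded ℂ) := tendsto_inv₀_nhdsNE_zero
  have hlarge : ∀ᶠ w : ℂ in 𝓝[≠] 0, M < ‖w⁻¹‖ :=
    (tendsto_norm_cobounded_atTop.comp hinf).eventually_gt_atTop M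
  have hne : ∀ᶠ w in 𝓝[≠] (0 : ℂ), R i0 w⁻¹ ≠ 0 := by
    rcases (hRm i0).eventually_eq_zero_or_eventually_ne_zero with h1 | h1
    · exfalso
      -- the function vanishes near infinity
      have h2 : ∀ᶠ w in 𝓝[≠] (0 : ℂ), Fn (e * u i0) w⁻¹ = 0 := by
        filter_upwards [h1, hlarge] with w h3 h4
        rw [← h.eq, hRe i0 _ ((hM i0).trans_lt h4), h3, zero_mul]
      have h5 : e * u i0 ≠ 0 := mul_ne_zero h.ne (hu i0)
      have h6 := Fn_ne_codis h5
      -- a point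
      have h2' := h2.and (ev_inv 1)
      rw [eventually_nhdsWithin_iff, Metric.eventually_nhds_iff_ball] at h2'
      obtain ⟨r, hr, hrb⟩ := h2'
      -- the point of large norm
      let w0 : ℂ := (r / 2 : ℝ)
      have hw0 : w0 ∈ ball (0 : ℂ) r ∧ w0 ≠ 0 := by
        refine ⟨?_, ?_⟩
        · rw [mem_ball_zero_iff]
          simp only [w0, Complex.norm_real, Real.norm_eq_abs]
          rw [abs_of_pos (by linarith)]
          linarith
        · simp only [w0]
          exact_mod_cast (by linarith : r / 2 ≠ 0)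
      have h7 : ∀ᶠ z in 𝓝 (w0⁻¹), Fn (e * u i0) z = 0 := by
        have h8 : ContinuousAt (fun z : ℂ => z⁻¹) (w0⁻¹) := continuousAt_inv₀ (inv_ne_zero hw0.2)
        have h9 : ∀ᶠ v in 𝓝 ((w0⁻¹)⁻¹), v ∈ ball (0 : ℂ) r ∧ v ≠ 0 := by
          rw [inv_inv]
          exact (isOpen_ball.eventually_mem hw0.1).and (eventually_ne_nhds hw0.2)
        filter_upwards [h8.eventually h9] with z hz
        have := (hrb z⁻¹ hz.1 hz.2).1
        rwa [inv_inv] at this
      have h8 := cod_ev h6 (x := w0⁻¹) (hrb w0 hw0.1 hw0.2).2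
      obtain ⟨z, h9, h10⟩ := ((h7.filter_mono nhdsWithin_le_nhds).and h8).exists
      exact h10 h9
    · exact h1
  unfold MInf
  refine ((hRm i).fun_div (hRm i0)).congr ?_
  filter_upwards [hne, hlarge] with w h1 h2
  have h3 : U 0 w⁻¹ ≠ 0 := hU0 _ h2
  have h4 : U i0 w⁻¹ ≠ 0 := by
    rw [hRe i0 _ ((hM i0).trans_lt h2)]
    exact mul_ne_zero h1 h3
  have h5 := (h.val (i := i) (show w⁻¹ ∈ Ext 2 from hM2.trans_lt h2) h4).2
  rw [h0, div_one] at h5
  rw [h5, hRe i0 _ ((hM i0).trans_lt h2), hRe i _ ((hM i).trans_lt h2), mul_div_mul_right _ _ h3]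

end Pool.Agent.Y221.AP
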