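import Pool.Agent.Y221.AP.Main

/-!
The family of a finite extension: upper bounds.
-/

set_option autoImplicit false
set_option maxHeartbeats 400000
set_option linter.unusedSectionVars false

namespace Pool.Agent.Y221.AP

open Filter Metric Set Topology Pool.Agent.W602.NC Pool.Agent.W602.TL
  Pool.Agent.TH152.HY Pool.Agent.W602.GT Pool.Agent.W603.LV Pool.Agent.W603.BP Polynomial
open Pool.Agent.Y221.AB (pn Ix card_Ix an Nbd norm_pow_le)



variable {K₁ : Type} [Field K₁] [Algebra MK K₁] [Algebra ℂ K₁] [IsScalarTower ℂ MK K₁]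
  [FiniteDimensional MK K₁]

theorem dsc_ne (pb : PowerBasis MK K₁) : dsc pb ≠ 0 := by
  unfold dsc
  rw [Ne, Algebra.norm_eq_zero_iff]
  have hsep : (minpoly MK pb.gen).Separable := (minpoly.irreducible pb.isIntegral_gen).separable
  exact hsep.aeval_derivative_ne_zero (minpoly.aeval MK pb.gen)

/-- the members of the family -/
noncomputable def fam (pb : PowerBasis MK K₁) {m : ℕ} (β : Fin (m + 1) → K₁) :
    Ix pb.dim m → MK
  | Sum.inl _ => 1
  | Sum.inr (Sum.inl _) => dsc pb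
  | Sum.inr (Sum.inr (Sum.inl j)) => Algebra.norm MK (β j)
  | Sum.inr (Sum.inr (Sum.inr (Sum.inl k))) => (minpoly MK pb.gen).coeff k
  | Sum.inr (Sum.inr (Sum.inr (Sum.inr x))) => dsc pb * pb.basis.repr (β x.1) x.2

/-- the upper bound for the members of the family -/
theorem fam_le (pb : PowerBasis MK K₁) {m : ℕ} {β : Fin (m + 1) → K₁} {z : Om}
    {b : Fin pb.dim → Fin (m + 1) → ℂ} (hb0 : ∀ i, b i 0 = 1) {c : ℝ} (hc : 0 ≤ c)
    (h1 : ∀ j, Fn (Algebra.norm MK (β j)) z = ∏ i, b i j)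
    (h2 : ∀ k, ‖Fn ((minpoly MK pb.gen).coeff k) z‖ ≤ (1 + c * ∏ i, ‖b i‖) ^ pb.dim)
    (h3 : ‖Fn (dsc pb) z‖ ≤ ((1 + 2 * (c * ∏ i, ‖b i‖)) ^ pb.dim) ^ pb.dim)
    (h4 : ∀ j k, ‖Fn (dsc pb * pb.basis.repr (β j) k) z‖ ≤
      pb.dim * ((∏ i, ‖b i‖) * ((1 + 2 * (c * ∏ i, ‖b i‖)) ^ pb.dim) ^ pb.dim *
        (1 + c * ∏ i, ‖b i‖) ^ pb.dim)) :
    1 ≤ ∏ i, ‖b i‖ ∧ ∀ x : Ix pb.dim m, ‖Fn (nz (fam pb β x)) z‖ ≤
      ((pb.dim + 1) * (1 + 2 * c) ^ an pb.dim) * (∏ i, ‖b i‖) ^ an pb.dim := by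
  have hbn : ∀ i, 1 ≤ ‖b i‖ := by
    intro i
    have h1 := norm_le_pi_norm (b i) 0
    rw [hb0, norm_one] at h1
    exact h1
  have hS1 : 1 ≤ ∏ i, ‖b i‖ := by
    calc (1 : ℝ) = ∏ _i : Fin pb.dim, (1 : ℝ) := by rw [Finset.prod_const_one]
      _ ≤ _ := Finset.prod_le_prod (fun _ _ => zero_le_one) fun l _ => hbn l
  refine ⟨hS1, ?_⟩
  have hpr : ∀ j, ‖∏ i, b i j‖ ≤ ∏ i, ‖b i‖ := by
    intro j
    rw [norm_prod]
    exact Finset.prod_le_prod (fun _ _ => norm_nonneg _) fun i _ => norm_le_pi_norm (b i) j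
  set S := ∏ i, ‖b i‖ with hS
  set n := pb.dim with hn
  set M := (1 + 2 * c) * S with hM
  have hM1 : 1 ≤ M := one_le_mul_of_one_le_of_one_le (by linarith) hS1
  have hMS : S ≤ M := by
    rw [hM]
    exact le_mul_of_one_le_left (by linarith) (by linarith)
  have e1 : 1 + c * S ≤ M := by rw [hM]; nlinarith
  have e2 : 1 + 2 * (c * S) ≤ M := by rw [hM]; nlinarith
  have hbig : ((n + 1 : ℝ) * (1 + 2 * c) ^ an n) * S ^ an n = (n + 1) * M ^ an n := by
    rw [hM, mul_pow]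
    ring
  rw [hbig]
  have hn0 : (0 : ℝ) ≤ n := Nat.cast_nonneg n
  have hpow : ∀ k, k ≤ an n → M ^ k ≤ (n + 1 : ℝ) * M ^ an n := by
    intro k hk
    calc M ^ k ≤ M ^ an n := pow_le_pow_right₀ hM1 hk
      _ = 1 * M ^ an n := (one_mul _).symm
      _ ≤ _ := by
        have : 0 ≤ M ^ an n := by positivity
        gcongr
        linarith
  have hone : (1 : ℝ) ≤ (n + 1 : ℝ) * M ^ an n := by
    have := hpow 0 (Nat.zero_le _)
    rwa [pow_zero] at this
  have hbound : ∀ x : Ix n m, ‖Fn (fam pb β x) z‖ ≤ (n + 1 : ℝ) * M ^ an n := by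
    rintro (x | x | j | k | x)
    · change ‖Fn 1 z‖ ≤ _
      have h4 : Fn 1 z = 1 := map_one (evO z)
      rw [h4, norm_one]
      exact hone
    · change ‖Fn (dsc pb) z‖ ≤ _
      refine h3.trans ?_
      have h5 : ((1 + 2 * (c * S)) ^ n) ^ n ≤ M ^ (n * n) := by
        rw [pow_mul]
        gcongr
      exact h5.trans (hpow _ (by unfold an; omega))
    · change ‖Fn (Algebra.norm MK (β j)) z‖ ≤ _
      rw [h1]
      refine ((hpr j).trans hMS).trans ?_
      have := hpow 1 (by unfold an; omega)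
      rwa [pow_one] at this
    · change ‖Fn ((minpoly MK pb.gen).coeff k) z‖ ≤ _
      refine (h2 k).trans ?_
      have h5 : (1 + c * S) ^ n ≤ M ^ n := by gcongr
      exact h5.trans (hpow _ (by unfold an; omega))
    · change ‖Fn (dsc pb * pb.basis.repr (β x.1) x.2) z‖ ≤ _
      refine (h4 _ _).trans ?_
      have h5 : S * ((1 + 2 * (c * S)) ^ n) ^ n * (1 + c * S) ^ n ≤ M * (M ^ n) ^ n * M ^ n := by
        gcongr
      have h6 : M * (M ^ n) ^ n * M ^ n = M ^ an n := by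
        rw [← pow_mul, ← pow_succ', ← pow_add]
        congr 1
        unfold an
        ring
      rw [h6] at h5
      have h7 : 0 ≤ M ^ an n := by positivity
      calc (n : ℝ) * (S * ((1 + 2 * (c * S)) ^ n) ^ n * (1 + c * S) ^ n) ≤ n * M ^ an n := by
            gcongr
        _ ≤ (n + 1 : ℝ) * M ^ an n := by
            gcongr
            linarith
  intro x
  by_cases hx : fam pb β x = 0
  · have h5 : nz (fam pb β x) = 1 := by
      classical
      unfold nz
      rw [if_pos hx]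
    have h4 : Fn 1 z = 1 := map_one (evO z)
    rw [h5, h4, norm_one]
    exact hone
  · rw [nz_of hx]
    exact hbound x

end Pool.Agent.Y221.AP
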